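import Pool.Agent.H95.SelS.Sel

set_option autoImplicit false

/-! A leaf of a correct selection tree determines the set of the smaller elements. -/

namespace Pool.Agent.H95.SelS

open Pool.Agent.H78.SelU
open Pool.Agent.H78.SelU.DT

/-- `σ` answers all the comparisons of the list as recorded -/
private def CertR {n : ℕ} (L : List (Fin n × Fin n × Bool)) (σ : Equiv.Perm (Fin n)) : Prop :=
  ∀ c ∈ L, decide (σ c.1 < σ c.2.1) = c.2.2

private theorem Cert_swap {n : ℕ} (i j : Fin n) (hij : i.val + 1 = j.val) (u v : Fin n)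
    (h1 : ¬ (u = i ∧ v = j)) (h2 : ¬ (u = j ∧ v = i)) :
    Equiv.swap i j u < Equiv.swap i j v ↔ u < v := by
  rw [Equiv.swap_apply_def, Equiv.swap_apply_def]
  simp only [Fin.ext_iff] at h1 h2 ⊢
  split_ifs <;> simp only [Fin.lt_def] at * <;> omega

private theorem Cert_adj {n : ℕ} (σ τ : Equiv.Perm (Fin n)) (h : σ ≠ τ) :
    ∃ i j : Fin n, i.val + 1 = j.val ∧ τ (σ.symm j) < τ (σ.symm i) := by
  by_contra hcon
  push Not at hcon
  apply h
  have hadj : ∀ i j : Fin n, i.val + 1 = j.val → τ (σ.symm i) < τ (σ.symm j) := by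
    intro i j hij
    refine lt_of_le_of_ne (hcon i j hij) ?_
    intro he
    have h1 : i = j := σ.symm.injective (τ.injective he)
    rw [h1] at hij
    omega
  have hall : ∀ k : ℕ, ∀ i j : Fin n, i.val + (k + 1) = j.val → τ (σ.symm i) < τ (σ.symm j) := by
    intro k
    induction k with
    | zero => intro i j hij; exact hadj i j hij
    | succ k ih =>
      intro i j hij
      have hlt : i.val + (k + 1) < n := by have := j.isLt; omega
      exact (ih i ⟨i.val + (k + 1), hlt⟩ rfl).trans
        (hadj ⟨i.val + (k + 1), hlt⟩ j (by simp only; omega))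
  have hmono : StrictMono (fun i : Fin n => τ (σ.symm i)) := by
    intro i j hij
    have hij' : i.val < j.val := hij
    exact hall (j.val - i.val - 1) i j (by omega)
  have hid : (fun i : Fin n => τ (σ.symm i)) = id := (hmono.range_inj strictMono_id).1 (by
    rw [Set.range_id]
    exact (σ.symm.trans τ).surjective.range_eq)
  ext x
  have := congrFun hid (σ x)
  simp only [Equiv.symm_apply_apply, id_eq] at this
  rw [this]

/-- the inversions between two permutations -/
private def Cert_inv {n : ℕ} (σ τ : Equiv.Perm (Fin n)) : Finset (Fin n × Fin n) :=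
  Finset.univ.filter (fun p => σ p.1 < σ p.2 ∧ τ p.2 < τ p.1)

private theorem Cert_key {n : ℕ} (t z : Fin n) (L : List (Fin n × Fin n × Bool))
    (hz : ∀ σ, CertR L σ → σ z = t) (τ : Equiv.Perm (Fin n)) (hτ : CertR L τ) :
    ∀ N : ℕ, ∀ σ : Equiv.Perm (Fin n), (Cert_inv σ τ).card = N → CertR L σ →
      ∀ y : Fin n, σ y < t ↔ τ y < t := by
  intro N
  induction N using Nat.strong_induction_on with
  | _ N ih =>
    intro σ hN hσ y
    by_cases hst : σ = τ
    · rw [hst]
    obtain ⟨i, j, hij, hlt⟩ := Cert_adj σ τ hst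
    set a := σ.symm i with ha
    set b := σ.symm j with hb
    have hσa : σ a = i := by rw [ha, Equiv.apply_symm_apply]
    have hσb : σ b = j := by rw [hb, Equiv.apply_symm_apply]
    have hxa : ∀ x, σ x = i → x = a := fun x hx => σ.injective (hx.trans hσa.symm)
    have hxb : ∀ x, σ x = j → x = b := fun x hx => σ.injective (hx.trans hσb.symm)
    have hilt : i < j := by rw [Fin.lt_def]; omega
    set ρ : Equiv.Perm (Fin n) := σ.trans (Equiv.swap i j) with hρ
    have hρa : ∀ x, ρ x = Equiv.swap i j (σ x) := fun x => rfl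
    have hR : CertR L ρ := by
      intro c hc
      have h1 := hσ c hc
      have h2 := hτ c hc
      rw [← h1]
      by_cases e1 : σ c.1 = i ∧ σ c.2.1 = j
      · exfalso
        rw [hxa _ e1.1, hxb _ e1.2] at h1 h2
        rw [hσa, hσb, decide_eq_true hilt] at h1
        rw [← h1] at h2
        exact absurd (of_decide_eq_true h2) (not_lt.2 hlt.le)
      by_cases e2 : σ c.1 = j ∧ σ c.2.1 = i
      · exfalso
        rw [hxb _ e2.1, hxa _ e2.2] at h1 h2
        rw [hσa, hσb, decide_eq_false (not_lt.2 hilt.le)] at h1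
        rw [← h1] at h2
        exact absurd hlt (of_decide_eq_false h2)
      rw [hρa, hρa]
      exact decide_eq_decide.2 (Cert_swap i j hij _ _ e1 e2)
    have hσz := hz σ hσ
    have hρz := hz ρ hR
    rw [hρa, hσz] at hρz
    have hti : t ≠ i := by
      rintro rfl
      rw [Equiv.swap_apply_left] at hρz
      rw [hρz] at hilt
      exact lt_irrefl _ hilt
    have htj : t ≠ j := by
      rintro rfl
      rw [Equiv.swap_apply_right] at hρz
      rw [hρz] at hilt
      exact lt_irrefl _ hilt
    have hcard : (Cert_inv ρ τ).card < (Cert_inv σ τ).card := by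
      apply Finset.card_lt_card
      rw [Finset.ssubset_iff_of_subset]
      · refine ⟨(a, b), ?_, ?_⟩
        · rw [Cert_inv, Finset.mem_filter]
          refine ⟨Finset.mem_univ _, ?_, hlt⟩
          simp only
          rw [hσa, hσb]
          exact hilt
        · rw [Cert_inv, Finset.mem_filter]
          rintro ⟨-, h1, -⟩
          simp only at h1
          rw [hρa, hρa, hσa, hσb, Equiv.swap_apply_left, Equiv.swap_apply_right] at h1
          exact absurd hilt (not_lt.2 h1.le)
      · intro p hp
        rw [Cert_inv, Finset.mem_filter] at hp ⊢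
        obtain ⟨-, h1, h2⟩ := hp
        refine ⟨Finset.mem_univ _, ?_, h2⟩
        rw [hρa, hρa] at h1
        by_cases e1 : σ p.1 = i ∧ σ p.2 = j
        · rw [e1.1, e1.2]
          exact hilt
        by_cases e2 : σ p.1 = j ∧ σ p.2 = i
        · exfalso
          rw [hxb _ e2.1, hxa _ e2.2] at h2
          exact absurd hlt (not_lt.2 h2.le)
        exact (Cert_swap i j hij _ _ e1 e2).1 h1
    have hrec := ih (Cert_inv ρ τ).card (hN ▸ hcard) ρ rfl hR y
    rw [← hrec, hρa]
    have h3 := Cert_swap i j hij (σ y) t (fun h => htj h.2) (fun h => hti h.2)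
    rw [hρz] at h3
    exact h3.symm

private theorem Cert_build {n : ℕ} (t : Fin n) (T : DT n (Fin n)) :
    ∀ L : List (Fin n × Fin n × Bool), (∀ σ, CertR L σ → σ (T.eval σ) = t) →
      ∃ U : DT n (Fin n × Finset (Fin n)), U.depth ≤ T.depth ∧ ∀ σ, CertR L σ →
        σ (U.eval σ).1 = t ∧ (U.eval σ).2 = Finset.univ.filter (fun y => σ y < t) := by
  induction T with
  | ret z =>
    intro L hL
    by_cases h : ∃ τ, CertR L τ
    · obtain ⟨τ, hτ⟩ := h
      refine ⟨ret (z, Finset.univ.filter (fun y => τ y < t)), le_refl _, fun σ hσ => ?_⟩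
      refine ⟨hL σ hσ, ?_⟩
      simp only [eval]
      ext y
      rw [Finset.mem_filter, Finset.mem_filter,
        Cert_key t z L (fun σ hσ => hL σ hσ) τ hτ _ σ rfl hσ y]
    · exact ⟨ret (z, ∅), le_refl _, fun σ hσ => absurd ⟨σ, hσ⟩ h⟩
  | ask x y a b iha ihb =>
    intro L hL
    obtain ⟨U, hU, hs⟩ := iha ((x, y, true) :: L) (by
      intro σ hσ
      have h1 := hσ (x, y, true) (List.mem_cons_self)
      have h2 : CertR L σ := fun c hc => hσ c (List.mem_cons_of_mem _ hc)
      have h3 := hL σ h2
      have h4 : σ x < σ y := of_decide_eq_true h1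
      simp only [eval, if_pos h4] at h3
      exact h3)
    obtain ⟨V, hV, ht⟩ := ihb ((x, y, false) :: L) (by
      intro σ hσ
      have h1 := hσ (x, y, false) (List.mem_cons_self)
      have h2 : CertR L σ := fun c hc => hσ c (List.mem_cons_of_mem _ hc)
      have h3 := hL σ h2
      have h4 : ¬ σ x < σ y := of_decide_eq_false h1
      simp only [eval, if_neg h4] at h3
      exact h3)
    refine ⟨ask x y U V, ?_, fun σ hσ => ?_⟩
    · simp only [depth]
      omega
    · simp only [eval]
      split_ifs with h
      · apply hs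
        intro c hc
        rcases List.mem_cons.1 hc with rfl | hc
        · exact decide_eq_true h
        · exact hσ c hc
      · apply ht
        intro c hc
        rcases List.mem_cons.1 hc with rfl | hc
        · exact decide_eq_false h
        · exact hσ c hc

theorem cert {n : ℕ} (t : Fin n) (k : ℕ) (h : TSuff n t k) :
    Comp k (fun (σ : Equiv.Perm (Fin n)) (x : Fin n × Finset (Fin n)) =>
      σ x.1 = t ∧ x.2 = Finset.univ.filter (fun y => σ y < t)) := by
  obtain ⟨T, hT, hs⟩ := h
  obtain ⟨U, hU, hu⟩ := Cert_build t T [] (fun σ _ => hs σ)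
  exact ⟨U, hU.trans hT, fun σ => hu σ (fun c hc => absurd hc (List.not_mem_nil))⟩

end Pool.Agent.H95.SelS
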