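import Mathlib

set_option autoImplicit false

/-! A one-dimensional covering lemma for a monotone function. -/

namespace Pool.Agent.H95.SelS

private theorem cover_aux (f : ℕ → ℕ) (hf : Monotone f) (u m0 : ℕ) (n : ℕ) : ∀ (M : ℕ) (B : Finset ℕ), B.card ≤ n → (∀ b ∈ B, b ≤ M) →
    (∀ b ∈ B, ∃ a, m0 ≤ a ∧ a < b ∧ u ≤ b - a ∧ b - a + 3 * f a ≤ 3 * f b) →
    (B.biUnion (fun b => Finset.Ioc (b - u) b)).card + 6 * f m0 ≤ 6 * f (max m0 M) := by
  induction n with
  | zero =>
    intro M B hc _ _
    have hB : B = ∅ := Finset.card_eq_zero.1 (Nat.le_zero.1 hc)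
    subst hB
    have := hf (le_max_left m0 M)
    simp only [Finset.biUnion_empty, Finset.card_empty]
    omega
  | succ n ih =>
    intro M B hc hM hB
    rcases B.eq_empty_or_nonempty with h0 | hne
    · subst h0
      have := hf (le_max_left m0 M)
      simp only [Finset.biUnion_empty, Finset.card_empty]
      omega
    · set b := B.max' hne with hb
      have hbB : b ∈ B := B.max'_mem hne
      obtain ⟨a, ha0, hab, hu, hfa⟩ := hB b hbB
      have hlt : (B.filter (fun x => x ≤ a)).card < B.card := by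
        refine Finset.card_lt_card (Finset.filter_ssubset.2 ⟨b, hbB, ?_⟩)
        omega
      have h1 := ih a (B.filter (fun x => x ≤ a)) (by omega) (fun x hx => (Finset.mem_filter.1 hx).2)
        (fun x hx => hB x (Finset.mem_filter.1 hx).1)
      rw [max_eq_right ha0] at h1
      have hsub : B.biUnion (fun b => Finset.Ioc (b - u) b) ⊆
          (B.filter (fun x => x ≤ a)).biUnion (fun b => Finset.Ioc (b - u) b) ∪ Finset.Ioc (a - u) b := by
        intro x hx
        obtain ⟨c, hc1, hc2⟩ := Finset.mem_biUnion.1 hx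
        rw [Finset.mem_union]
        by_cases hca : c ≤ a
        · left
          exact Finset.mem_biUnion.2 ⟨c, Finset.mem_filter.2 ⟨hc1, hca⟩, hc2⟩
        · right
          have hcb : c ≤ b := B.le_max' c hc1
          rw [Finset.mem_Ioc] at hc2 ⊢
          omega
      have h2 := (Finset.card_le_card hsub).trans (Finset.card_union_le _ _)
      rw [Nat.card_Ioc] at h2
      have h3 : f b ≤ f (max m0 M) := hf ((hM b hbB).trans (le_max_right _ _))
      omega

theorem cover (f : ℕ → ℕ) (hf : Monotone f) (u m0 M : ℕ) (B : Finset ℕ) (hM : ∀ b ∈ B, b ≤ M)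
    (hB : ∀ b ∈ B, ∃ a, m0 ≤ a ∧ a < b ∧ u ≤ b - a ∧ b - a + 3 * f a ≤ 3 * f b) :
    (B.biUnion (fun b => Finset.Ioc (b - u) b)).card + 6 * f m0 ≤ 6 * f (max m0 M) :=
  cover_aux f hf u m0 B.card M B le_rfl hM hB

end Pool.Agent.H95.SelS
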