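import Pool.Agent.H95.SelS.Scale

set_option autoImplicit false

/-! Density one statements. -/

namespace Pool.Agent.H95.SelS

open Pool.Agent.H78.SelU
open Filter Topology

open Classical in
/-- the number of elements of `P` in `(N, M]` -/
noncomputable def cntP (P : ℕ → Prop) (N M : ℕ) : ℕ := ((Finset.Ioc N M).filter P).card

theorem cntP_split (P : ℕ → Prop) {N K M : ℕ} (hK : K ≤ M) : cntP P N M ≤ cntP P N K + cntP P K M := by
  classical
  unfold cntP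
  refine (Finset.card_le_card ?_).trans (Finset.card_union_le _ _)
  intro n hn
  rw [Finset.mem_union, Finset.mem_filter, Finset.mem_filter, Finset.mem_Ioc, Finset.mem_Ioc]
  rw [Finset.mem_filter, Finset.mem_Ioc] at hn
  rcases Nat.lt_or_ge K n with h | h
  · right; exact ⟨⟨h, hn.1.2⟩, hn.2⟩
  · left; exact ⟨⟨hn.1.1, h⟩, hn.2⟩

theorem cntP_le (P : ℕ → Prop) (N M : ℕ) : cntP P N M ≤ M - N := by
  classical
  unfold cntP
  refine (Finset.card_filter_le _ _).trans ?_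
  rw [Nat.card_Ioc]

theorem cntP_mono (P : ℕ → Prop) {N M M' : ℕ} (h : M ≤ M') : cntP P N M ≤ cntP P N M' := by
  classical
  unfold cntP
  apply Finset.card_le_card
  intro n hn
  rw [Finset.mem_filter, Finset.mem_Ioc] at hn ⊢
  exact ⟨⟨hn.1.1, by omega⟩, hn.2⟩

theorem cntP_imp {P Q : ℕ → Prop} {N M : ℕ} (h : ∀ n, N < n → n ≤ M → P n → Q n) :
    cntP P N M ≤ cntP Q N M := by
  classical
  unfold cntP
  apply Finset.card_le_card
  intro n hn
  rw [Finset.mem_filter, Finset.mem_Ioc] at hn ⊢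
  exact ⟨hn.1, h n hn.1.1 hn.1.2 hn.2⟩

/-- small in every dyadic block implies density zero -/
theorem dyadic (P : ℕ → Prop) (h : ∀ ε : ℝ, 0 < ε → ∃ N0, ∀ N, N0 ≤ N → (cntP P N (2 * N) : ℝ) ≤ ε * N) :
    Tendsto (fun N : ℕ => (cntP P 0 N : ℝ) / N) atTop (𝓝 0) := by
  have key : ∀ ε : ℝ, 0 < ε → ∃ C : ℝ, 0 ≤ C ∧ ∀ M : ℕ, (cntP P 0 M : ℝ) ≤ C + 2 * ε * M := by
    intro ε hε
    obtain ⟨N0, hN0⟩ := h ε hε
    refine ⟨2 * N0 + 3, by positivity, ?_⟩
    intro M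
    induction M using Nat.strong_induction_on with
    | _ M ih =>
      rcases Nat.lt_or_ge M (2 * N0 + 3) with hM | hM
      · have h1 := cntP_le P 0 M
        have h2 : (cntP P 0 M : ℝ) ≤ M := by exact_mod_cast (by omega : cntP P 0 M ≤ M)
        have h3 : (M : ℝ) ≤ 2 * N0 + 3 := by exact_mod_cast hM.le
        have h4 : 0 ≤ 2 * ε * M := by positivity
        linarith
      · set H := (M + 1) / 2 with hH
        have h1 : cntP P 0 M ≤ cntP P 0 H + cntP P H (2 * H) := by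
          refine (cntP_split P (show H ≤ M by omega)).trans ?_
          have := cntP_mono P (N := H) (show M ≤ 2 * H by omega)
          omega
        have h2 := ih H (by omega)
        have h3 := hN0 H (by omega)
        have h4 : (cntP P 0 M : ℝ) ≤ cntP P 0 H + cntP P H (2 * H) := by exact_mod_cast h1
        have h5 : 3 * (H : ℝ) ≤ 2 * M := by exact_mod_cast (by omega : 3 * H ≤ 2 * M)
        nlinarith
  rw [Metric.tendsto_atTop]
  intro ε hε
  obtain ⟨C, hC, hb⟩ := key (ε / 8) (by positivity)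
  obtain ⟨n0, hn0⟩ := exists_nat_gt (4 * C / ε)
  refine ⟨max n0 1, fun N hN => ?_⟩
  have hN1 : 1 ≤ N := (le_max_right _ _).trans hN
  have hNpos : (0 : ℝ) < N := by exact_mod_cast hN1
  have hN0 : (n0 : ℝ) ≤ N := by exact_mod_cast (le_max_left _ _).trans hN
  rw [Real.dist_eq, sub_zero, abs_of_nonneg (by positivity), div_lt_iff₀ hNpos]
  have h1 := hb N
  have h2 : 4 * C < ε * N := by
    have : 4 * C / ε < N := lt_of_lt_of_le hn0 hN0
    rw [div_lt_iff₀ hε] at this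
    linarith
  nlinarith

theorem sum_sq_le (L : ℕ) : ∑ i ∈ Finset.range L, (1 : ℝ) / ((i : ℝ) + 1) ^ 2 ≤ 2 := by
  have key : ∀ L : ℕ, ∑ i ∈ Finset.range (L + 1), (1 : ℝ) / ((i : ℝ) + 1) ^ 2 ≤ 2 - 1 / ((L : ℝ) + 1) := by
    intro L
    induction L with
    | zero => norm_num
    | succ L ih =>
      rw [Finset.sum_range_succ]
      push_cast
      have h0 : (0 : ℝ) < (L : ℝ) + 1 := by positivity
      have h1 : (1 : ℝ) / ((L : ℝ) + 1 + 1) ^ 2 ≤ 1 / ((L : ℝ) + 1) - 1 / ((L : ℝ) + 1 + 1) := by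
        rw [div_sub_div _ _ (by positivity) (by positivity), div_le_div_iff₀ (by positivity) (by positivity)]
        nlinarith
      linarith
  rcases Nat.eq_zero_or_pos L with h | h
  · subst h; simp
  · obtain ⟨L', rfl⟩ : ∃ L', L = L' + 1 := ⟨L - 1, by omega⟩
    have := key L'
    have h1 : (0 : ℝ) < 1 / ((L' : ℝ) + 1) := by positivity
    linarith

/-- a pair violating the order inside the admissible range -/
def PairFail (ω : ℕ → ℝ) (n : ℕ) : Prop := ∃ a b, a < b ∧ b < n ∧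
  ((b : ℝ) + 1) ^ 2 * ((Nat.log 2 (b - a) : ℝ) + 1) ^ 2 * ω n ≤ n * ((b - a : ℕ) : ℝ) ∧ W b n < W a n

theorem pair_block (ω : ℕ → ℝ) (A : ℝ) (hA : 0 < A) (N : ℕ) (hω : ∀ n, N < n → A ≤ ω n) :
    (cntP (PairFail ω) N (2 * N) : ℝ) ≤ 184320 / A * N := by
  classical
  set K : ℕ → ℕ := fun i => Nat.floor (Real.sqrt (4 * N * 2 ^ i / (((i : ℝ) + 1) ^ 2 * A))) with hK
  have hK2 : ∀ i, (K i : ℝ) ^ 2 ≤ 4 * N * 2 ^ i / (((i : ℝ) + 1) ^ 2 * A) := by
    intro i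
    have h1 : (K i : ℝ) ≤ Real.sqrt (4 * N * 2 ^ i / (((i : ℝ) + 1) ^ 2 * A)) :=
      Nat.floor_le (Real.sqrt_nonneg _)
    calc (K i : ℝ) ^ 2 ≤ (Real.sqrt (4 * N * 2 ^ i / (((i : ℝ) + 1) ^ 2 * A))) ^ 2 := by gcongr
      _ = 4 * N * 2 ^ i / (((i : ℝ) + 1) ^ 2 * A) := Real.sq_sqrt (by positivity)
  have hsub : (Finset.Ioc N (2 * N)).filter (PairFail ω) ⊆
      (Finset.range (2 * N)).biUnion (fun i => Bad N (K i) (2 ^ i)) := by
    intro n hn
    rw [Finset.mem_filter, Finset.mem_Ioc] at hn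
    obtain ⟨⟨hN, hn2⟩, a, b, hab, hbn, hlim, hf⟩ := hn
    rw [Finset.mem_biUnion]
    set i := Nat.log 2 (b - a) with hi
    have hlow : 2 ^ i ≤ b - a := Nat.pow_log_le_self 2 (by omega)
    have hupp : b - a < 2 ^ (i + 1) := Nat.lt_pow_succ_log_self (by norm_num) _
    refine ⟨i, ?_, ?_⟩
    · rw [Finset.mem_range]
      have := Nat.log_lt_self 2 (show b - a ≠ 0 by omega)
      omega
    · rw [mem_Bad]
      refine ⟨⟨hN, hn2⟩, a, b, hab, ?_, hbn, hlow, hf⟩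
      rw [← Nat.succ_le_iff]
      refine Nat.le_floor ?_
      rw [Nat.cast_succ]
      refine Real.le_sqrt_of_sq_le ?_
      rw [le_div_iff₀ (by positivity)]
      have h1 : ((b - a : ℕ) : ℝ) ≤ 2 * 2 ^ i := by
        have : b - a ≤ 2 * 2 ^ i := by rw [pow_succ] at hupp; omega
        exact_mod_cast this
      have h2 : (n : ℝ) ≤ 2 * N := by exact_mod_cast hn2
      have hAn := hω n hN
      calc ((b : ℝ) + 1) ^ 2 * (((i : ℝ) + 1) ^ 2 * A)
          = ((b : ℝ) + 1) ^ 2 * ((i : ℝ) + 1) ^ 2 * A := by ring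
        _ ≤ ((b : ℝ) + 1) ^ 2 * ((i : ℝ) + 1) ^ 2 * ω n := by gcongr
        _ ≤ n * ((b - a : ℕ) : ℝ) := hlim
        _ ≤ (2 * N) * (2 * 2 ^ i) := by gcongr
        _ = 4 * N * 2 ^ i := by ring
  have h1 : (cntP (PairFail ω) N (2 * N) : ℝ) ≤ ∑ i ∈ Finset.range (2 * N), ((Bad N (K i) (2 ^ i)).card : ℝ) := by
    have := (Finset.card_le_card hsub).trans Finset.card_biUnion_le
    unfold cntP
    exact_mod_cast this
  have h2 : ∀ i ∈ Finset.range (2 * N), ((Bad N (K i) (2 ^ i)).card : ℝ) ≤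
      92160 / A * N * (1 / ((i : ℝ) + 1) ^ 2) := by
    intro i _
    have h3 := bad_card (N := N) (k := K i) (s := 2 ^ i) (Nat.one_le_two_pow)
    have h4 : ((Bad N (K i) (2 ^ i)).card : ℝ) * 2 ^ i ≤ 23040 * (K i : ℝ) ^ 2 := by exact_mod_cast h3
    have h5 : ((Bad N (K i) (2 ^ i)).card : ℝ) * 2 ^ i ≤
        (92160 / A * N * (1 / ((i : ℝ) + 1) ^ 2)) * 2 ^ i := by
      calc ((Bad N (K i) (2 ^ i)).card : ℝ) * 2 ^ i ≤ 23040 * (K i : ℝ) ^ 2 := h4
        _ ≤ 23040 * (4 * N * 2 ^ i / (((i : ℝ) + 1) ^ 2 * A)) := by gcongr; exact hK2 i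
        _ = (92160 / A * N * (1 / ((i : ℝ) + 1) ^ 2)) * 2 ^ i := by
          field_simp
          ring
    exact le_of_mul_le_mul_right h5 (by positivity)
  have h3 := Finset.sum_le_sum h2
  rw [← Finset.mul_sum] at h3
  have h4 := sum_sq_le (2 * N)
  calc (cntP (PairFail ω) N (2 * N) : ℝ) ≤ 92160 / A * N *
        ∑ i ∈ Finset.range (2 * N), (1 : ℝ) / ((i : ℝ) + 1) ^ 2 := h1.trans h3
    _ ≤ 92160 / A * N * 2 := by gcongr
    _ = 184320 / A * N := by ring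

theorem block_to_density (P : ℕ → Prop) (C : ℝ) (ω : ℕ → ℝ) (hω : Tendsto ω atTop atTop)
    (h : ∀ A : ℝ, 0 < A → ∀ N : ℕ, (∀ n, N < n → A ≤ ω n) → (cntP P N (2 * N) : ℝ) ≤ C / A * N) :
    Tendsto (fun N : ℕ => (cntP P 0 N : ℝ) / N) atTop (𝓝 0) := by
  apply dyadic
  intro ε hε
  set A : ℝ := |C| / ε + 1 with hA
  have hApos : 0 < A := by positivity
  obtain ⟨N0, hN0⟩ := (Filter.tendsto_atTop.1 hω A).exists_forall_of_atTop
  refine ⟨N0, fun N hN => ?_⟩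
  refine (h A hApos N (fun n hn => hN0 n (by omega))).trans ?_
  apply mul_le_mul_of_nonneg_right _ (Nat.cast_nonneg N)
  rw [div_le_iff₀ hApos]
  have h1 : |C| / ε * ε = |C| := div_mul_cancel₀ _ hε.ne'
  have h2 := le_abs_self C
  rw [hA]
  nlinarith

theorem pair_density (ω : ℕ → ℝ) (hω : Tendsto ω atTop atTop) :
    Tendsto (fun N : ℕ => (cntP (PairFail ω) 0 N : ℝ) / N) atTop (𝓝 0) :=
  block_to_density _ 184320 ω hω (fun A hA N h => pair_block ω A hA N h)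

open Classical in
/-- the number of descents among the first `K` steps -/
noncomputable def desc (n K : ℕ) : ℕ :=
  ((Finset.range K).filter (fun t => t + 1 < n ∧ W (t + 1) n < W t n)).card

theorem desc_mono (n : ℕ) {K K' : ℕ} (h : K ≤ K') : desc n K ≤ desc n K' := by
  classical
  unfold desc
  apply Finset.card_le_card
  intro t ht
  rw [Finset.mem_filter, Finset.mem_range] at ht ⊢
  exact ⟨by omega, ht.2⟩

theorem sum_desc (N K : ℕ) : ∑ n ∈ Finset.Ioc N (2 * N), desc n K ≤ 60 * K ^ 2 := by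
  classical
  have h1 : ∑ n ∈ Finset.Ioc N (2 * N), desc n K = ∑ t ∈ Finset.range K,
      ((Finset.Ioc N (2 * N)).filter (fun n => t + 1 < n ∧ W (t + 1) n < W t n)).card := by
    unfold desc
    simp only [Finset.card_filter]
    exact Finset.sum_comm
  rw [h1]
  refine (Finset.sum_le_sum (fun t _ => row_card t N)).trans ?_
  rw [← Finset.mul_sum]
  have h2 := Finset.sum_range_id_mul_two K
  have h3 : K * (K - 1) ≤ K ^ 2 := by
    rw [pow_two]
    exact Nat.mul_le_mul_left _ (Nat.sub_le _ _)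
  omega

/-- too many descents -/
def ManyDesc (ω : ℕ → ℝ) (n : ℕ) : Prop := ∃ K, 1 ≤ K ∧ K ≤ n ∧
  ω n * (K : ℝ) ^ 2 * ((Nat.log 2 (n / K) : ℝ) + 1) ^ 2 < (desc n K : ℝ) * n

theorem many_block (ω : ℕ → ℝ) (A : ℝ) (hA : 0 < A) (N : ℕ) (hω : ∀ n, N < n → A ≤ ω n) :
    (cntP (ManyDesc ω) N (2 * N) : ℝ) ≤ 3840 / A * N := by
  classical
  rcases Nat.eq_zero_or_pos N with hN0 | hN0
  · subst hN0
    have := cntP_le (ManyDesc ω) 0 (2 * 0)
    have h0 : cntP (ManyDesc ω) 0 (2 * 0) = 0 := by omega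
    rw [h0]
    simp
  have hNpos : (0 : ℝ) < N := by exact_mod_cast hN0
  set B : ℕ → Finset ℕ := fun i => (Finset.Ioc N (2 * N)).filter (fun n =>
    A * N * ((i : ℝ) + 1) ^ 2 / (8 * 4 ^ i) ≤ (desc n (2 * N / 2 ^ i) : ℝ)) with hB
  have hsub : (Finset.Ioc N (2 * N)).filter (ManyDesc ω) ⊆ (Finset.range (2 * N)).biUnion B := by
    intro n hn
    rw [Finset.mem_filter, Finset.mem_Ioc] at hn
    obtain ⟨⟨hN, hn2⟩, K, hK1, hKn, hlim⟩ := hn
    rw [Finset.mem_biUnion]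
    set i := Nat.log 2 (n / K) with hi
    have hdiv : n / K ≠ 0 := by
      have := Nat.div_pos hKn hK1
      omega
    have hlow : 2 ^ i ≤ n / K := Nat.pow_log_le_self 2 hdiv
    have hupp : n / K < 2 ^ (i + 1) := Nat.lt_pow_succ_log_self (by norm_num) _
    have hlow' : 2 ^ i * K ≤ n := (Nat.le_div_iff_mul_le hK1).1 hlow
    have hupp' : n < 2 ^ (i + 1) * K := (Nat.div_lt_iff_lt_mul hK1).1 hupp
    refine ⟨i, ?_, ?_⟩
    · rw [Finset.mem_range]
      have h1 := Nat.log_lt_self 2 hdiv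
      have h2 := Nat.div_le_self n K
      omega
    · rw [hB]
      simp only
      rw [Finset.mem_filter, Finset.mem_Ioc]
      refine ⟨⟨hN, hn2⟩, ?_⟩
      have h1 : desc n K ≤ desc n (2 * N / 2 ^ i) := by
        apply desc_mono
        rw [Nat.le_div_iff_mul_le (by positivity)]
        rw [mul_comm]
        omega
      have h1' : (desc n K : ℝ) ≤ desc n (2 * N / 2 ^ i) := by exact_mod_cast h1
      have h2 : (N : ℝ) ≤ 2 * 2 ^ i * K := by
        have : N ≤ 2 * 2 ^ i * K := by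
          rw [pow_succ] at hupp'
          have e : 2 ^ i * 2 * K = 2 * 2 ^ i * K := by ring
          omega
        exact_mod_cast this
      have h3 : (n : ℝ) ≤ 2 * N := by exact_mod_cast hn2
      have hAn := hω n hN
      rw [div_le_iff₀ (by positivity)]
      have h4 : A * (K : ℝ) ^ 2 * ((i : ℝ) + 1) ^ 2 ≤ (desc n (2 * N / 2 ^ i) : ℝ) * (2 * N) := by
        calc A * (K : ℝ) ^ 2 * ((i : ℝ) + 1) ^ 2 ≤ ω n * (K : ℝ) ^ 2 * ((i : ℝ) + 1) ^ 2 := by gcongr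
          _ ≤ (desc n K : ℝ) * n := hlim.le
          _ ≤ (desc n (2 * N / 2 ^ i) : ℝ) * (2 * N) := by gcongr
      have h5 : (N : ℝ) ^ 2 ≤ (2 * 2 ^ i * K) ^ 2 := by gcongr
      have h6 : ((2 : ℝ) ^ i) ^ 2 = 4 ^ i := by
        rw [← pow_mul, mul_comm, pow_mul]
        norm_num
      have h7 : (N : ℝ) ^ 2 ≤ 4 * 4 ^ i * (K : ℝ) ^ 2 := by
        calc (N : ℝ) ^ 2 ≤ (2 * 2 ^ i * K) ^ 2 := h5
          _ = 4 * ((2 : ℝ) ^ i) ^ 2 * (K : ℝ) ^ 2 := by ring
          _ = 4 * 4 ^ i * (K : ℝ) ^ 2 := by rw [h6]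
      have h8 : A * N * ((i : ℝ) + 1) ^ 2 * N ≤ (desc n (2 * N / 2 ^ i) : ℝ) * (8 * 4 ^ i) * N := by
        calc A * N * ((i : ℝ) + 1) ^ 2 * N = A * ((i : ℝ) + 1) ^ 2 * (N : ℝ) ^ 2 := by ring
          _ ≤ A * ((i : ℝ) + 1) ^ 2 * (4 * 4 ^ i * (K : ℝ) ^ 2) := by gcongr
          _ = 4 * 4 ^ i * (A * (K : ℝ) ^ 2 * ((i : ℝ) + 1) ^ 2) := by ring
          _ ≤ 4 * 4 ^ i * ((desc n (2 * N / 2 ^ i) : ℝ) * (2 * N)) := by gcongr
          _ = (desc n (2 * N / 2 ^ i) : ℝ) * (8 * 4 ^ i) * N := by ring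
      exact le_of_mul_le_mul_right h8 hNpos
  have h1 : (cntP (ManyDesc ω) N (2 * N) : ℝ) ≤ ∑ i ∈ Finset.range (2 * N), ((B i).card : ℝ) := by
    have := (Finset.card_le_card hsub).trans Finset.card_biUnion_le
    unfold cntP
    exact_mod_cast this
  have h2 : ∀ i ∈ Finset.range (2 * N), ((B i).card : ℝ) ≤
      1920 / A * N * (1 / ((i : ℝ) + 1) ^ 2) := by
    intro i _
    set T : ℝ := A * N * ((i : ℝ) + 1) ^ 2 / (8 * 4 ^ i) with hT
    have hTpos : 0 < T := by positivity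
    have h3 : ((B i).card : ℝ) * T ≤ 60 * ((2 * N / 2 ^ i : ℕ) : ℝ) ^ 2 := by
      have h4 : ((B i).card : ℝ) * T ≤ ∑ n ∈ B i, (desc n (2 * N / 2 ^ i) : ℝ) := by
        rw [← nsmul_eq_mul]
        apply Finset.card_nsmul_le_sum
        intro n hn
        exact (Finset.mem_filter.1 hn).2
      have h5 : ∑ n ∈ B i, (desc n (2 * N / 2 ^ i) : ℝ) ≤
          ∑ n ∈ Finset.Ioc N (2 * N), (desc n (2 * N / 2 ^ i) : ℝ) := by
        apply Finset.sum_le_sum_of_subset_of_nonneg (Finset.filter_subset _ _)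
        intro n _ _
        positivity
      have h6 : ∑ n ∈ Finset.Ioc N (2 * N), (desc n (2 * N / 2 ^ i) : ℝ) ≤
          60 * ((2 * N / 2 ^ i : ℕ) : ℝ) ^ 2 := by
        exact_mod_cast sum_desc N (2 * N / 2 ^ i)
      linarith
    have h7 : ((2 * N / 2 ^ i : ℕ) : ℝ) ≤ 2 * N / 2 ^ i := by
      refine Nat.cast_div_le.trans ?_
      push_cast
      exact le_refl _
    have h6' : ((2 : ℝ) ^ i) ^ 2 = 4 ^ i := by
      rw [← pow_mul, mul_comm, pow_mul]
      norm_num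
    have h8 : ((B i).card : ℝ) * T ≤ (1920 / A * N * (1 / ((i : ℝ) + 1) ^ 2)) * T := by
      calc ((B i).card : ℝ) * T ≤ 60 * ((2 * N / 2 ^ i : ℕ) : ℝ) ^ 2 := h3
        _ ≤ 60 * (2 * N / 2 ^ i) ^ 2 := by gcongr
        _ = 240 * (N : ℝ) ^ 2 / ((2 : ℝ) ^ i) ^ 2 := by ring
        _ = 240 * (N : ℝ) ^ 2 / 4 ^ i := by rw [h6']
        _ = (1920 / A * N * (1 / ((i : ℝ) + 1) ^ 2)) * T := by
          rw [hT]
          field_simp
          ring
    exact le_of_mul_le_mul_right h8 hTpos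
  have h3 := Finset.sum_le_sum h2
  rw [← Finset.mul_sum] at h3
  have h4 := sum_sq_le (2 * N)
  calc (cntP (ManyDesc ω) N (2 * N) : ℝ) ≤ 1920 / A * N *
        ∑ i ∈ Finset.range (2 * N), (1 : ℝ) / ((i : ℝ) + 1) ^ 2 := h1.trans h3
    _ ≤ 1920 / A * N * 2 := by gcongr
    _ = 3840 / A * N := by ring

theorem many_density (ω : ℕ → ℝ) (hω : Tendsto ω atTop atTop) :
    Tendsto (fun N : ℕ => (cntP (ManyDesc ω) 0 N : ℝ) / N) atTop (𝓝 0) :=
  block_to_density _ 3840 ω hω (fun A hA N h => many_block ω A hA N h)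

end Pool.Agent.H95.SelS
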