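import Pool.Agent.H95.SelS.Scale

set_option autoImplicit false

/-! Large drops: at most `34560 k^2 (log s + 1) / s` numbers in `(N, 2N]` have a drop of size at
least `s` below `k`. -/

namespace Pool.Agent.H95.SelS

open Pool.Agent.H78.SelU

private theorem cover2_aux (f : ℕ → ℕ) (hf : Monotone f) (u m0 s K : ℕ) (n : ℕ) :
    ∀ (M : ℕ) (B : Finset ℕ), B.card ≤ n → (∀ b ∈ B, b ≤ M) →
    (∀ b ∈ B, ∃ a, m0 ≤ a ∧ a < b ∧ u ≤ b - a ∧ s * (b - a) + K * f a ≤ K * f b) →
    s * (B.biUnion (fun b => Finset.Ioc (b - u) b)).card + 2 * (K * f m0) ≤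
      2 * (K * f (max m0 M)) := by
  induction n with
  | zero =>
    intro M B hc _ _
    have hB : B = ∅ := Finset.card_eq_zero.1 (Nat.le_zero.1 hc)
    subst hB
    have := Nat.mul_le_mul_left K (hf (le_max_left m0 M))
    simp only [Finset.biUnion_empty, Finset.card_empty]
    omega
  | succ n ih =>
    intro M B hc hM hB
    rcases B.eq_empty_or_nonempty with h0 | hne
    · subst h0
      have := Nat.mul_le_mul_left K (hf (le_max_left m0 M))
      simp only [Finset.biUnion_empty, Finset.card_empty]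
      omega
    · set b := B.max' hne with hb
      have hbB : b ∈ B := B.max'_mem hne
      obtain ⟨a, ha0, hab, hu, hfa⟩ := hB b hbB
      have hlt : (B.filter (fun x => x ≤ a)).card < B.card := by
        refine Finset.card_lt_card (Finset.filter_ssubset.2 ⟨b, hbB, ?_⟩)
        omega
      have h1 := ih a (B.filter (fun x => x ≤ a)) (by omega) (fun x hx => (Finset.mem_filter.1 hx).2)
        (fun x hx => hB x (Finset.mem_filter.1 hx).1)
      rw [max_eq_right ha0] at h1
      have hsub : B.biUnion (fun b => Finset.Ioc (b - u) b) ⊆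
          (B.filter (fun x => x ≤ a)).biUnion (fun b => Finset.Ioc (b - u) b) ∪
            Finset.Ioc (a - u) b := by
        intro x hx
        obtain ⟨c, hc1, hc2⟩ := Finset.mem_biUnion.1 hx
        rw [Finset.mem_union]
        by_cases hca : c ≤ a
        · left
          exact Finset.mem_biUnion.2 ⟨c, Finset.mem_filter.2 ⟨hc1, hca⟩, hc2⟩
        · right
          have hcb : c ≤ b := B.le_max' c hc1
          rw [Finset.mem_Ioc] at hc2 ⊢
          omega
      have h2 := (Finset.card_le_card hsub).trans (Finset.card_union_le _ _)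
      rw [Nat.card_Ioc] at h2
      have h3 : f b ≤ f (max m0 M) := hf ((hM b hbB).trans (le_max_right _ _))
      have h3' := Nat.mul_le_mul_left K h3
      have h4 : (B.biUnion (fun b => Finset.Ioc (b - u) b)).card ≤
          ((B.filter (fun x => x ≤ a)).biUnion (fun b => Finset.Ioc (b - u) b)).card +
            2 * (b - a) := by omega
      have h5 := Nat.mul_le_mul_left s h4
      rw [Nat.mul_add, Nat.mul_left_comm] at h5
      omega

/-- weighted covering lemma -/
theorem cover2 (f : ℕ → ℕ) (hf : Monotone f) (u m0 M s K : ℕ) (B : Finset ℕ)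
    (hM : ∀ b ∈ B, b ≤ M)
    (hB : ∀ b ∈ B, ∃ a, m0 ≤ a ∧ a < b ∧ u ≤ b - a ∧ s * (b - a) + K * f a ≤ K * f b) :
    s * (B.biUnion (fun b => Finset.Ioc (b - u) b)).card + 2 * (K * f m0) ≤
      2 * (K * f (max m0 M)) :=
  cover2_aux f hf u m0 s K B.card M B le_rfl hM hB

/-- a large drop makes the row `c` steep -/
theorem steep2 {a b c n s : ℕ} (hac : a ≤ c) (hcb : c ≤ b) (hn : 2 * b < n + c) (hbn : b < n)
    (hf : W b n + s ≤ W a n) :
    ex c (n - 2 * (b - c)) + (b - c) + s ≤ ex c (n + (c - a)) := by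
  have h1 := W_pairs (t := c) (n := n - 2 * (b - c)) (by omega) (b - c)
  have h2 := W_diags (t := a) (n := n) (by omega) (c - a)
  have e1 : c + (b - c) = b := by omega
  have e2 : n - 2 * (b - c) + 2 * (b - c) = n := by omega
  have e3 : a + (c - a) = c := by omega
  rw [e1, e2] at h1
  rw [e3] at h2
  have h3 := ex_eq (show c < n - 2 * (b - c) by omega)
  have h4 := ex_eq (show c < n + (c - a) by omega)
  omega

open Classical in
/-- right ends of the pieces of the row `c` at scale `u` with increment at least `s` -/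
noncomputable def ends2 (c u s N : ℕ) : Finset ℕ := (Finset.range (4 * N + 1)).filter (fun b =>
  ∃ a, N / 2 ≤ a ∧ a < b ∧ u ≤ b - a ∧ s * (b - a) + 12 * u * ex c a ≤ 12 * u * ex c b)

theorem mem_ends2 {c u s N b : ℕ} : b ∈ ends2 c u s N ↔ b < 4 * N + 1 ∧
    ∃ a, N / 2 ≤ a ∧ a < b ∧ u ≤ b - a ∧ s * (b - a) + 12 * u * ex c a ≤ 12 * u * ex c b := by
  classical
  unfold ends2
  rw [Finset.mem_filter, Finset.mem_range]

noncomputable def cov2 (c u s N : ℕ) : Finset ℕ :=
  (ends2 c u s N).biUnion (fun b => Finset.Ioc (b - u) b)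

theorem cov2_card {c u s N : ℕ} (h : 2 * c + 1 < N) : s * (cov2 c u s N).card ≤ 11520 * (u * c) := by
  have h1 := cover2 (ex c) (ex_mono c) u (N / 2) (4 * N) s (12 * u) (ends2 c u s N)
    (fun b hb => by have := (mem_ends2.1 hb).1; omega) (fun b hb => (mem_ends2.1 hb).2)
  have h2 : max (N / 2) (4 * N) ≤ 16 * (N / 2) := by omega
  have h3 := ex_mono c h2
  have h4 := ex_sixteen (show c < N / 2 by omega)
  have h5 : 12 * u * ex c (max (N / 2) (4 * N)) ≤ 12 * u * (ex c (N / 2) + 480 * c) :=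
    Nat.mul_le_mul_left _ (h3.trans h4)
  have h6 : 12 * u * (ex c (N / 2) + 480 * c) = 12 * u * ex c (N / 2) + 5760 * (u * c) := by ring
  unfold cov2
  omega

theorem mem_cov2 {a b c u n N s : ℕ} (hac : a ≤ c) (hq : c - a < u) (hr : u ≤ b - c) (hcb : c < b)
    (hbu : b - a < 4 * u) (hN : N < n) (hn : n ≤ 2 * N) (hb : 4 * b < N)
    (hf : W b n + s ≤ W a n) : n ∈ cov2 c u s N := by
  have h1 := steep2 hac hcb.le (by omega) (by omega) hf
  unfold cov2
  rw [Finset.mem_biUnion]
  refine ⟨n + (c - a), ?_, ?_⟩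
  · rw [mem_ends2]
    refine ⟨by omega, n - 2 * (b - c), by omega, by omega, by omega, ?_⟩
    have h2 : n + (c - a) - (n - 2 * (b - c)) ≤ 12 * u := by omega
    have h3 : ex c (n - 2 * (b - c)) + s ≤ ex c (n + (c - a)) := by omega
    calc s * (n + (c - a) - (n - 2 * (b - c))) + 12 * u * ex c (n - 2 * (b - c))
        ≤ s * (12 * u) + 12 * u * ex c (n - 2 * (b - c)) :=
          Nat.add_le_add_right (Nat.mul_le_mul_left s h2) _
      _ = 12 * u * (ex c (n - 2 * (b - c)) + s) := by ring
      _ ≤ 12 * u * ex c (n + (c - a)) := Nat.mul_le_mul_left _ h3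
  · rw [Finset.mem_Ioc]
    omega

/-- the scale of a pair, with the upper bound -/
theorem exists_row2 (a b : ℕ) : b - a < 4 * 2 ^ (Nat.log 2 (b - a) - 1) := by
  have h1 : b - a < 2 ^ (Nat.log 2 (b - a) + 1) := Nat.lt_pow_succ_log_self (by norm_num) _
  refine h1.trans_le ?_
  have e : (4 : ℕ) = 2 ^ 2 := rfl
  rw [e, ← pow_add]
  exact Nat.pow_le_pow_right (by norm_num) (by omega)

theorem W_linear {t n : ℕ} (h : t < n) : W t n ≤ 40 * n := by
  rw [W_eq h]
  apply V_le
  obtain ⟨T, hT, hs⟩ := sel_linear (m := n) Finset.univ t (by rw [Finset.card_univ, Fintype.card_fin]; exact h)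
  refine ⟨T, ?_, fun σ => ?_⟩
  · rw [Finset.card_univ, Fintype.card_fin] at hT
    exact hT
  · have h1 := (hs σ).2
    have h2 := Relabel_card σ (σ (T.eval σ))
    unfold below at h1
    rw [h2] at h1
    exact Fin.ext h1

open Classical in
/-- the numbers in `(N, 2N]` with a drop of size at least `s` below `k` -/
noncomputable def Drop (N k s : ℕ) : Finset ℕ := (Finset.Ioc N (2 * N)).filter (fun n =>
  ∃ a b, a < b ∧ b < k ∧ b < n ∧ W b n + s ≤ W a n)

theorem mem_Drop {N k s n : ℕ} : n ∈ Drop N k s ↔ (N < n ∧ n ≤ 2 * N) ∧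
    ∃ a b, a < b ∧ b < k ∧ b < n ∧ W b n + s ≤ W a n := by
  classical
  unfold Drop
  rw [Finset.mem_filter, Finset.mem_Ioc]

theorem drop_subset {N k s : ℕ} (h : 4 * k ≤ N) (hs : 1 ≤ s) : Drop N k s ⊆ Bad N k s ∪
    (Finset.range (Nat.log 2 s + 1)).biUnion (fun e =>
      (Finset.range (k / 2 ^ e + 1)).biUnion (fun j => cov2 (j * 2 ^ e) (2 ^ e) s N)) := by
  intro n hn
  obtain ⟨⟨hN, hn2⟩, a, b, hab, hbk, hbn, hf⟩ := mem_Drop.1 hn
  rw [Finset.mem_union]
  rcases Nat.lt_or_ge (b - a) s with hlt | hge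
  · right
    obtain ⟨j, h1, h2, h3, h4⟩ := exists_row hab
    have h5 := exists_row2 a b
    set e := Nat.log 2 (b - a) - 1 with he
    have hpos : 0 < 2 ^ e := by positivity
    rw [Finset.mem_biUnion]
    refine ⟨e, ?_, ?_⟩
    · rw [Finset.mem_range]
      have := Nat.log_mono_right (b := 2) hlt.le
      omega
    · rw [Finset.mem_biUnion]
      refine ⟨j, ?_, mem_cov2 h1 h2 h3 h4 h5 hN hn2 (by omega) hf⟩
      rw [Finset.mem_range, Nat.lt_succ_iff]
      rw [Nat.le_div_iff_mul_le hpos]
      omega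
  · left
    rw [mem_Bad]
    exact ⟨⟨hN, hn2⟩, a, b, hab, hbk, hbn, hge, by omega⟩

theorem drop_card {N k s : ℕ} (hs : 1 ≤ s) :
    (Drop N k s).card * s ≤ 34560 * k ^ 2 * (Nat.log 2 s + 1) := by
  rcases Nat.lt_or_ge N (4 * k) with hN | hN
  · rcases (Drop N k s).eq_empty_or_nonempty with h0 | ⟨n, hn⟩
    · rw [h0]
      simp
    · obtain ⟨⟨hn1, hn2⟩, a, b, hab, hbk, hbn, hf⟩ := mem_Drop.1 hn
      have h1 : (Drop N k s).card ≤ 4 * k := by
        classical
        unfold Drop
        refine (Finset.card_filter_le _ _).trans ?_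
        rw [Nat.card_Ioc]
        omega
      have h2 : s ≤ 320 * k := by
        have := W_linear (show a < n by omega)
        omega
      calc (Drop N k s).card * s ≤ 4 * k * (320 * k) := Nat.mul_le_mul h1 h2
        _ = 1280 * k ^ 2 := by ring
        _ ≤ 34560 * k ^ 2 * (Nat.log 2 s + 1) := by
          have h3 : 34560 * k ^ 2 ≤ 34560 * k ^ 2 * (Nat.log 2 s + 1) :=
            Nat.le_mul_of_pos_right _ (by omega)
          omega
  · rcases Nat.eq_zero_or_pos k with hk0 | hk0
    · have : Drop N k s = ∅ := by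
        rw [Finset.eq_empty_iff_forall_notMem]
        intro n hn
        obtain ⟨-, a, b, hab, hbk, -, -⟩ := mem_Drop.1 hn
        omega
      rw [this]
      simp
    have hrow : ∀ e, s * ((Finset.range (k / 2 ^ e + 1)).biUnion
        (fun j => cov2 (j * 2 ^ e) (2 ^ e) s N)).card ≤ 11520 * k ^ 2 := by
      intro e
      have hpos : 0 < 2 ^ e := by positivity
      have h1 : s * ((Finset.range (k / 2 ^ e + 1)).biUnion
          (fun j => cov2 (j * 2 ^ e) (2 ^ e) s N)).card ≤
          ∑ j ∈ Finset.range (k / 2 ^ e + 1), s * (cov2 (j * 2 ^ e) (2 ^ e) s N).card := by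
        rw [← Finset.mul_sum]
        exact Nat.mul_le_mul_left _ Finset.card_biUnion_le
      refine h1.trans ?_
      rw [Finset.sum_range_succ']
      have h0 : s * (cov2 (0 * 2 ^ e) (2 ^ e) s N).card ≤ 11520 * (2 ^ e * (0 * 2 ^ e)) :=
        cov2_card (by omega)
      have hj : ∀ j ∈ Finset.range (k / 2 ^ e),
          s * (cov2 ((j + 1) * 2 ^ e) (2 ^ e) s N).card ≤ 11520 * (2 ^ e * k) := by
        intro j hj
        rw [Finset.mem_range] at hj
        have hle : (j + 1) * 2 ^ e ≤ k := by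
          rw [← Nat.le_div_iff_mul_le hpos]
          omega
        have := cov2_card (c := (j + 1) * 2 ^ e) (u := 2 ^ e) (s := s) (N := N) (by omega)
        exact this.trans (Nat.mul_le_mul_left _ (Nat.mul_le_mul_left _ hle))
      have h2 := Finset.sum_le_sum hj
      rw [Finset.sum_const, Finset.card_range, smul_eq_mul] at h2
      have h3 : k / 2 ^ e * (11520 * (2 ^ e * k)) ≤ 11520 * k ^ 2 := by
        have : k / 2 ^ e * 2 ^ e ≤ k := Nat.div_mul_le_self k _
        calc k / 2 ^ e * (11520 * (2 ^ e * k)) = 11520 * ((k / 2 ^ e * 2 ^ e) * k) := by ring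
          _ ≤ 11520 * (k * k) := by gcongr
          _ = 11520 * k ^ 2 := by ring
      have h4 : 11520 * (2 ^ e * (0 * 2 ^ e)) = 0 := by ring
      rw [h4] at h0
      omega
    have h1 := (Finset.card_le_card (drop_subset hN hs)).trans (Finset.card_union_le _ _)
    have h2 := bad_card (N := N) (k := k) hs
    have h3 : s * ((Finset.range (Nat.log 2 s + 1)).biUnion (fun e =>
        (Finset.range (k / 2 ^ e + 1)).biUnion (fun j => cov2 (j * 2 ^ e) (2 ^ e) s N))).card ≤
        (Nat.log 2 s + 1) * (11520 * k ^ 2) := by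
      refine (Nat.mul_le_mul_left _ Finset.card_biUnion_le).trans ?_
      rw [Finset.mul_sum]
      refine (Finset.sum_le_sum (fun e _ => hrow e)).trans ?_
      rw [Finset.sum_const, Finset.card_range, smul_eq_mul]
    have h4 : 23040 * k ^ 2 ≤ 23040 * k ^ 2 * (Nat.log 2 s + 1) := Nat.le_mul_of_pos_right _ (by omega)
    calc (Drop N k s).card * s ≤ ((Bad N k s).card + ((Finset.range (Nat.log 2 s + 1)).biUnion
          (fun e => (Finset.range (k / 2 ^ e + 1)).biUnion
            (fun j => cov2 (j * 2 ^ e) (2 ^ e) s N))).card) * s := Nat.mul_le_mul_right s h1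
      _ = (Bad N k s).card * s + s * ((Finset.range (Nat.log 2 s + 1)).biUnion
          (fun e => (Finset.range (k / 2 ^ e + 1)).biUnion
            (fun j => cov2 (j * 2 ^ e) (2 ^ e) s N))).card := by ring
      _ ≤ 23040 * k ^ 2 * (Nat.log 2 s + 1) + (Nat.log 2 s + 1) * (11520 * k ^ 2) :=
          Nat.add_le_add (h2.trans h4) h3
      _ = 34560 * k ^ 2 * (Nat.log 2 s + 1) := by ring

end Pool.Agent.H95.SelS
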