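import Pool.Agent.H95.SelS.Dens
import Pool.Agent.H95.SelS.Excess

set_option autoImplicit false

/-! Density one statements, second form (weights in terms of `n / (b+1)`) and the size of drops. -/

namespace Pool.Agent.H95.SelS

open Pool.Agent.H78.SelU
open Filter Topology

theorem cntP_or (P Q R : ℕ → Prop) (hR : ∀ n, R n → P n ∨ Q n) (N M : ℕ) :
    cntP R N M ≤ cntP P N M + cntP Q N M := by
  classical
  unfold cntP
  refine (Finset.card_le_card ?_).trans (Finset.card_union_le _ _)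
  intro n hn
  obtain ⟨h1, h2⟩ := Finset.mem_filter.1 hn
  rcases hR n h2 with h | h
  · exact Finset.mem_union_left _ (Finset.mem_filter.2 ⟨h1, h⟩)
  · exact Finset.mem_union_right _ (Finset.mem_filter.2 ⟨h1, h⟩)

theorem two_pow_sq (i : ℕ) : ((2 : ℝ) ^ i) ^ 2 = 4 ^ i := by
  rw [← pow_mul, mul_comm, pow_mul]
  norm_num

/-- the class of `b` in terms of `i = log (n / (b+1))` -/
theorem class_bounds {b n N : ℕ} (hb : b < n) (hN : N < n) (hn2 : n ≤ 2 * N) :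
    b < 2 * N / 2 ^ (Nat.log 2 (n / (b + 1))) ∧
      (N : ℝ) ^ 2 ≤ 4 * 4 ^ (Nat.log 2 (n / (b + 1))) * ((b : ℝ) + 1) ^ 2 ∧
      Nat.log 2 (n / (b + 1)) < 2 * N := by
  set i := Nat.log 2 (n / (b + 1)) with hi
  have hK1 : 0 < b + 1 := by omega
  have hdiv : n / (b + 1) ≠ 0 := by
    have := Nat.div_pos (show b + 1 ≤ n by omega) hK1
    omega
  have hlow : 2 ^ i ≤ n / (b + 1) := Nat.pow_log_le_self 2 hdiv
  have hupp : n / (b + 1) < 2 ^ (i + 1) := Nat.lt_pow_succ_log_self (by norm_num) _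
  have hlow' : 2 ^ i * (b + 1) ≤ n := (Nat.le_div_iff_mul_le hK1).1 hlow
  have hupp' : n < 2 ^ (i + 1) * (b + 1) := (Nat.div_lt_iff_lt_mul hK1).1 hupp
  refine ⟨?_, ?_, ?_⟩
  · rw [← Nat.succ_le_iff, Nat.le_div_iff_mul_le (by positivity)]
    have e : b.succ * 2 ^ i = 2 ^ i * (b + 1) := by rw [mul_comm]
    omega
  · have h1 : (N : ℝ) ≤ 2 * 2 ^ i * ((b : ℝ) + 1) := by
      have : N ≤ 2 * 2 ^ i * (b + 1) := by
        rw [pow_succ] at hupp'
        have e : 2 ^ i * 2 * (b + 1) = 2 * 2 ^ i * (b + 1) := by ring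
        omega
      exact_mod_cast this
    calc (N : ℝ) ^ 2 ≤ (2 * 2 ^ i * ((b : ℝ) + 1)) ^ 2 := by gcongr
      _ = 4 * ((2 : ℝ) ^ i) ^ 2 * ((b : ℝ) + 1) ^ 2 := by ring
      _ = 4 * 4 ^ i * ((b : ℝ) + 1) ^ 2 := by rw [two_pow_sq]
  · have h1 := Nat.log_lt_self 2 hdiv
    have h2 := Nat.div_le_self n (b + 1)
    omega

/-- a pair violating the order inside the admissible range, second form -/
def PairFailB (ω : ℕ → ℝ) (n : ℕ) : Prop := ∃ a b, a < b ∧ b < n ∧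
  ((b : ℝ) + 1) ^ 2 * ((Nat.log 2 (n / (b + 1)) : ℝ) + 1) ^ 2 * ω n ≤ n * ((b - a : ℕ) : ℝ) ∧
    W b n < W a n

theorem pairB_block (ω : ℕ → ℝ) (A : ℝ) (hA : 0 < A) (N : ℕ) (hω : ∀ n, N < n → A ≤ ω n) :
    (cntP (PairFailB ω) N (2 * N) : ℝ) ≤ 1474560 / A * N := by
  classical
  rcases Nat.eq_zero_or_pos N with hN0 | hN0
  · subst hN0
    have := cntP_le (PairFailB ω) 0 (2 * 0)
    have h0 : cntP (PairFailB ω) 0 (2 * 0) = 0 := by omega
    rw [h0]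
    simp
  have hNpos : (0 : ℝ) < N := by exact_mod_cast hN0
  set T : ℕ → ℝ := fun i => A * N * ((i : ℝ) + 1) ^ 2 / (8 * 4 ^ i) with hT
  have hTpos : ∀ i, 0 < T i := fun i => by simp only [hT]; positivity
  have hsub : (Finset.Ioc N (2 * N)).filter (PairFailB ω) ⊆
      (Finset.range (2 * N)).biUnion (fun i => Bad N (2 * N / 2 ^ i) ⌈T i⌉₊) := by
    intro n hn
    rw [Finset.mem_filter, Finset.mem_Ioc] at hn
    obtain ⟨⟨hN, hn2⟩, a, b, hab, hbn, hlim, hf⟩ := hn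
    obtain ⟨h1, h2, h3⟩ := class_bounds hbn hN hn2
    rw [Finset.mem_biUnion]
    set i := Nat.log 2 (n / (b + 1)) with hi
    refine ⟨i, Finset.mem_range.2 h3, ?_⟩
    rw [mem_Bad]
    refine ⟨⟨hN, hn2⟩, a, b, hab, h1, hbn, ?_, hf⟩
    refine Nat.ceil_le.2 ?_
    simp only [hT]
    rw [div_le_iff₀ (by positivity)]
    have h4 : (n : ℝ) ≤ 2 * N := by exact_mod_cast hn2
    have hAn := hω n hN
    have h5 : ((b : ℝ) + 1) ^ 2 * ((i : ℝ) + 1) ^ 2 * A ≤ 2 * N * ((b - a : ℕ) : ℝ) := by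
      calc ((b : ℝ) + 1) ^ 2 * ((i : ℝ) + 1) ^ 2 * A
          ≤ ((b : ℝ) + 1) ^ 2 * ((i : ℝ) + 1) ^ 2 * ω n := by gcongr
        _ ≤ n * ((b - a : ℕ) : ℝ) := hlim
        _ ≤ 2 * N * ((b - a : ℕ) : ℝ) := by gcongr
    have h6 : A * N * ((i : ℝ) + 1) ^ 2 * N ≤ ((b - a : ℕ) : ℝ) * (8 * 4 ^ i) * N := by
      calc A * N * ((i : ℝ) + 1) ^ 2 * N = A * ((i : ℝ) + 1) ^ 2 * (N : ℝ) ^ 2 := by ring
        _ ≤ A * ((i : ℝ) + 1) ^ 2 * (4 * 4 ^ i * ((b : ℝ) + 1) ^ 2) := by gcongr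
        _ = 4 * 4 ^ i * (((b : ℝ) + 1) ^ 2 * ((i : ℝ) + 1) ^ 2 * A) := by ring
        _ ≤ 4 * 4 ^ i * (2 * N * ((b - a : ℕ) : ℝ)) := by gcongr
        _ = ((b - a : ℕ) : ℝ) * (8 * 4 ^ i) * N := by ring
    exact le_of_mul_le_mul_right h6 hNpos
  have h1 : (cntP (PairFailB ω) N (2 * N) : ℝ) ≤
      ∑ i ∈ Finset.range (2 * N), ((Bad N (2 * N / 2 ^ i) ⌈T i⌉₊).card : ℝ) := by
    have := (Finset.card_le_card hsub).trans Finset.card_biUnion_le
    unfold cntP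
    exact_mod_cast this
  have h2 : ∀ i ∈ Finset.range (2 * N), ((Bad N (2 * N / 2 ^ i) ⌈T i⌉₊).card : ℝ) ≤
      737280 / A * N * (1 / ((i : ℝ) + 1) ^ 2) := by
    intro i _
    have h3 := bad_card (N := N) (k := 2 * N / 2 ^ i) (s := ⌈T i⌉₊) (Nat.ceil_pos.2 (hTpos i))
    have h4 : ((Bad N (2 * N / 2 ^ i) ⌈T i⌉₊).card : ℝ) * (⌈T i⌉₊ : ℝ) ≤
        23040 * ((2 * N / 2 ^ i : ℕ) : ℝ) ^ 2 := by exact_mod_cast h3
    have h7 : ((2 * N / 2 ^ i : ℕ) : ℝ) ≤ 2 * N / 2 ^ i := by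
      refine Nat.cast_div_le.trans ?_
      push_cast
      exact le_refl _
    have h8 : ((Bad N (2 * N / 2 ^ i) ⌈T i⌉₊).card : ℝ) * T i ≤
        (737280 / A * N * (1 / ((i : ℝ) + 1) ^ 2)) * T i := by
      calc ((Bad N (2 * N / 2 ^ i) ⌈T i⌉₊).card : ℝ) * T i
          ≤ ((Bad N (2 * N / 2 ^ i) ⌈T i⌉₊).card : ℝ) * (⌈T i⌉₊ : ℝ) := by
            gcongr
            exact Nat.le_ceil _
        _ ≤ 23040 * ((2 * N / 2 ^ i : ℕ) : ℝ) ^ 2 := h4
        _ ≤ 23040 * (2 * N / 2 ^ i) ^ 2 := by gcongr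
        _ = 92160 * (N : ℝ) ^ 2 / ((2 : ℝ) ^ i) ^ 2 := by ring
        _ = 92160 * (N : ℝ) ^ 2 / 4 ^ i := by rw [two_pow_sq]
        _ = (737280 / A * N * (1 / ((i : ℝ) + 1) ^ 2)) * T i := by
          simp only [hT]
          field_simp
          ring
    exact le_of_mul_le_mul_right h8 (hTpos i)
  have h3 := Finset.sum_le_sum h2
  rw [← Finset.mul_sum] at h3
  have h4 := sum_sq_le (2 * N)
  calc (cntP (PairFailB ω) N (2 * N) : ℝ) ≤ 737280 / A * N *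
        ∑ i ∈ Finset.range (2 * N), (1 : ℝ) / ((i : ℝ) + 1) ^ 2 := h1.trans h3
    _ ≤ 737280 / A * N * 2 := by gcongr
    _ = 1474560 / A * N := by ring

/-- both forms together -/
def PairFailM (ω : ℕ → ℝ) (n : ℕ) : Prop := ∃ a b, a < b ∧ b < n ∧
  ((b : ℝ) + 1) ^ 2 * ((min (Nat.log 2 (b - a)) (Nat.log 2 (n / (b + 1))) : ℝ) + 1) ^ 2 * ω n ≤
    n * ((b - a : ℕ) : ℝ) ∧ W b n < W a n

theorem pairM_or (ω : ℕ → ℝ) (n : ℕ) (h : PairFailM ω n) : PairFail ω n ∨ PairFailB ω n := by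
  obtain ⟨a, b, hab, hbn, hlim, hf⟩ := h
  rcases le_total ((Nat.log 2 (b - a) : ℕ) : ℝ) (Nat.log 2 (n / (b + 1)) : ℕ) with h | h
  · left
    rw [min_eq_left h] at hlim
    exact ⟨a, b, hab, hbn, hlim, hf⟩
  · right
    rw [min_eq_right h] at hlim
    exact ⟨a, b, hab, hbn, hlim, hf⟩

theorem pairM_density (ω : ℕ → ℝ) (hω : Tendsto ω atTop atTop) :
    Tendsto (fun N : ℕ => (cntP (PairFailM ω) 0 N : ℝ) / N) atTop (𝓝 0) := by
  have h1 := pair_density ω hω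
  have h2 := block_to_density (PairFailB ω) 1474560 ω hω (fun A hA N h => pairB_block ω A hA N h)
  have h3 := h1.add h2
  rw [add_zero] at h3
  refine squeeze_zero (fun N => by positivity) (fun N => ?_) h3
  have h4 : cntP (PairFailM ω) 0 N ≤ cntP (PairFail ω) 0 N + cntP (PairFailB ω) 0 N :=
    cntP_or _ _ _ (pairM_or ω) _ _
  rw [← add_div]
  gcongr
  exact_mod_cast h4

/-- a drop which is too large -/
def DropFail (ω : ℕ → ℝ) (n : ℕ) : Prop := ∃ a b, a < b ∧ b < n ∧ W b n < W a n ∧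
  ω n * ((b : ℝ) + 1) ^ 2 * ((Nat.log 2 (n / (b + 1)) : ℝ) + 1) ^ 2 *
    ((Nat.log 2 (W a n - W b n) : ℝ) + 1) < n * ((W a n - W b n : ℕ) : ℝ)

theorem drop_block (ω : ℕ → ℝ) (A : ℝ) (hA : 0 < A) (N : ℕ) (hω : ∀ n, N < n → A ≤ ω n) :
    (cntP (DropFail ω) N (2 * N) : ℝ) ≤ 2211840 / A * N := by
  classical
  rcases Nat.eq_zero_or_pos N with hN0 | hN0
  · subst hN0
    have := cntP_le (DropFail ω) 0 (2 * 0)
    have h0 : cntP (DropFail ω) 0 (2 * 0) = 0 := by omega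
    rw [h0]
    simp
  have hNpos : (0 : ℝ) < N := by exact_mod_cast hN0
  set T : ℕ → ℝ := fun i => A * N * ((i : ℝ) + 1) ^ 2 / (8 * 4 ^ i) with hT
  have hTpos : ∀ i, 0 < T i := fun i => by simp only [hT]; positivity
  -- the least admissible size
  set P : ℕ → ℕ → Prop := fun i s => 1 ≤ s ∧ T i * ((Nat.log 2 s : ℝ) + 1) ≤ s with hP
  set B : ℕ → Finset ℕ := fun i => if h : ∃ s, P i s then Drop N (2 * N / 2 ^ i) (Nat.find h) else ∅
    with hB
  have hsub : (Finset.Ioc N (2 * N)).filter (DropFail ω) ⊆ (Finset.range (2 * N)).biUnion B := by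
    intro n hn
    rw [Finset.mem_filter, Finset.mem_Ioc] at hn
    obtain ⟨⟨hN, hn2⟩, a, b, hab, hbn, hf, hlim⟩ := hn
    obtain ⟨h1, h2, h3⟩ := class_bounds hbn hN hn2
    rw [Finset.mem_biUnion]
    set i := Nat.log 2 (n / (b + 1)) with hi
    refine ⟨i, Finset.mem_range.2 h3, ?_⟩
    set d := W a n - W b n with hd
    have h4 : (n : ℝ) ≤ 2 * N := by exact_mod_cast hn2
    have hAn := hω n hN
    have hPd : P i d := by
      refine ⟨by omega, ?_⟩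
      simp only [hT]
      rw [div_mul_eq_mul_div, div_le_iff₀ (by positivity)]
      have h5 : A * ((b : ℝ) + 1) ^ 2 * ((i : ℝ) + 1) ^ 2 * ((Nat.log 2 d : ℝ) + 1) ≤
          2 * N * (d : ℝ) := by
        calc A * ((b : ℝ) + 1) ^ 2 * ((i : ℝ) + 1) ^ 2 * ((Nat.log 2 d : ℝ) + 1)
            ≤ ω n * ((b : ℝ) + 1) ^ 2 * ((i : ℝ) + 1) ^ 2 * ((Nat.log 2 d : ℝ) + 1) := by gcongr
          _ ≤ n * (d : ℝ) := hlim.le
          _ ≤ 2 * N * (d : ℝ) := by gcongr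
      have h6 : A * N * ((i : ℝ) + 1) ^ 2 * ((Nat.log 2 d : ℝ) + 1) * N ≤
          (d : ℝ) * (8 * 4 ^ i) * N := by
        calc A * N * ((i : ℝ) + 1) ^ 2 * ((Nat.log 2 d : ℝ) + 1) * N
            = A * ((i : ℝ) + 1) ^ 2 * ((Nat.log 2 d : ℝ) + 1) * (N : ℝ) ^ 2 := by ring
          _ ≤ A * ((i : ℝ) + 1) ^ 2 * ((Nat.log 2 d : ℝ) + 1) *
              (4 * 4 ^ i * ((b : ℝ) + 1) ^ 2) := by gcongr
          _ = 4 * 4 ^ i * (A * ((b : ℝ) + 1) ^ 2 * ((i : ℝ) + 1) ^ 2 *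
              ((Nat.log 2 d : ℝ) + 1)) := by ring
          _ ≤ 4 * 4 ^ i * (2 * N * (d : ℝ)) := by gcongr
          _ = (d : ℝ) * (8 * 4 ^ i) * N := by ring
      exact le_of_mul_le_mul_right h6 hNpos
    have hE : ∃ s, P i s := ⟨d, hPd⟩
    have hBi : B i = Drop N (2 * N / 2 ^ i) (Nat.find hE) := by
      simp only [hB]
      rw [dif_pos hE]
    rw [hBi, mem_Drop]
    have hmin : Nat.find hE ≤ d := Nat.find_min' hE hPd
    exact ⟨⟨hN, hn2⟩, a, b, hab, h1, hbn, by omega⟩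
  have h1 : (cntP (DropFail ω) N (2 * N) : ℝ) ≤ ∑ i ∈ Finset.range (2 * N), ((B i).card : ℝ) := by
    have := (Finset.card_le_card hsub).trans Finset.card_biUnion_le
    unfold cntP
    exact_mod_cast this
  have h2 : ∀ i ∈ Finset.range (2 * N), ((B i).card : ℝ) ≤
      1105920 / A * N * (1 / ((i : ℝ) + 1) ^ 2) := by
    intro i _
    by_cases hE : ∃ s, P i s
    · have hBi : B i = Drop N (2 * N / 2 ^ i) (Nat.find hE) := by
        simp only [hB]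
        rw [dif_pos hE]
      obtain ⟨hs1, hs2⟩ := Nat.find_spec hE
      rw [hBi]
      set s := Nat.find hE with hs
      have hspos : (0 : ℝ) < s := by exact_mod_cast hs1
      have h3 := drop_card (N := N) (k := 2 * N / 2 ^ i) hs1
      have h4 : ((Drop N (2 * N / 2 ^ i) s).card : ℝ) * (s : ℝ) ≤
          34560 * ((2 * N / 2 ^ i : ℕ) : ℝ) ^ 2 * ((Nat.log 2 s : ℝ) + 1) := by exact_mod_cast h3
      have h7 : ((2 * N / 2 ^ i : ℕ) : ℝ) ≤ 2 * N / 2 ^ i := by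
        refine Nat.cast_div_le.trans ?_
        push_cast
        exact le_refl _
      have h5 : (2 * (N : ℝ) / 2 ^ i) ^ 2 = 4 * (N : ℝ) ^ 2 / 4 ^ i := by
        rw [div_pow, two_pow_sq]
        ring
      have h8 : ((Drop N (2 * N / 2 ^ i) s).card : ℝ) * T i * s ≤
          (1105920 / A * N * (1 / ((i : ℝ) + 1) ^ 2)) * T i * s := by
        calc ((Drop N (2 * N / 2 ^ i) s).card : ℝ) * T i * s
            = (((Drop N (2 * N / 2 ^ i) s).card : ℝ) * s) * T i := by ring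
          _ ≤ (34560 * ((2 * N / 2 ^ i : ℕ) : ℝ) ^ 2 * ((Nat.log 2 s : ℝ) + 1)) * T i := by
              have := (hTpos i).le
              gcongr
          _ ≤ (34560 * (2 * (N : ℝ) / 2 ^ i) ^ 2 * ((Nat.log 2 s : ℝ) + 1)) * T i := by
              have := (hTpos i).le
              gcongr
          _ = 34560 * (4 * (N : ℝ) ^ 2 / 4 ^ i) * (T i * ((Nat.log 2 s : ℝ) + 1)) := by
              rw [h5]; ring
          _ ≤ 34560 * (4 * (N : ℝ) ^ 2 / 4 ^ i) * s := by gcongr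
          _ = (1105920 / A * N * (1 / ((i : ℝ) + 1) ^ 2)) * T i * s := by
              simp only [hT]
              field_simp
              ring
      exact le_of_mul_le_mul_right (le_of_mul_le_mul_right h8 hspos) (hTpos i)
    · have hBi : B i = ∅ := by
        simp only [hB]
        rw [dif_neg hE]
      rw [hBi, Finset.card_empty, Nat.cast_zero]
      positivity
  have h3 := Finset.sum_le_sum h2
  rw [← Finset.mul_sum] at h3
  have h4 := sum_sq_le (2 * N)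
  calc (cntP (DropFail ω) N (2 * N) : ℝ) ≤ 1105920 / A * N *
        ∑ i ∈ Finset.range (2 * N), (1 : ℝ) / ((i : ℝ) + 1) ^ 2 := h1.trans h3
    _ ≤ 1105920 / A * N * 2 := by gcongr
    _ = 2211840 / A * N := by ring

theorem drop_density (ω : ℕ → ℝ) (hω : Tendsto ω atTop atTop) :
    Tendsto (fun N : ℕ => (cntP (DropFail ω) 0 N : ℝ) / N) atTop (𝓝 0) :=
  block_to_density _ 2211840 ω hω (fun A hA N h => drop_block ω A hA N h)

end Pool.Agent.H95.SelS
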