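import Pool.Agent.H95.SelS.Dens

set_option autoImplicit false

/-! The first `k(n)` terms are nondecreasing for almost all `n` if `k(n)^2 = o(n)`. -/

namespace Pool.Agent.H95.SelS

open Pool.Agent.H78.SelU
open Filter Topology

theorem good_density (k : ℕ → ℕ) (hk : Tendsto (fun n : ℕ => (k n : ℝ) ^ 2 / n) atTop (𝓝 0)) :
    Tendsto (fun N : ℕ => (cntP (fun n => ¬ GoodK (k n) n) 0 N : ℝ) / N) atTop (𝓝 0) := by
  set ω : ℕ → ℝ := fun n => n / ((k n : ℝ) ^ 2 + 1) with hω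
  have h1 : Tendsto (fun n : ℕ => ((k n : ℝ) ^ 2 + 1) / n) atTop (𝓝 0) := by
    have h2 : Tendsto (fun n : ℕ => (1 : ℝ) / n) atTop (𝓝 0) := tendsto_one_div_atTop_nhds_zero_nat
    have h3 := hk.add h2
    rw [add_zero] at h3
    refine h3.congr (fun n => ?_)
    rw [add_div]
  have hlim : Tendsto ω atTop atTop := by
    have h2 : Tendsto (fun n : ℕ => ((k n : ℝ) ^ 2 + 1) / n) atTop (𝓝[>] 0) := by
      rw [tendsto_nhdsWithin_iff]
      refine ⟨h1, ?_⟩
      filter_upwards [eventually_ge_atTop 1] with n hn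
      have : (0 : ℝ) < n := by exact_mod_cast hn
      rw [Set.mem_Ioi]
      positivity
    have h3 := h2.inv_tendsto_nhdsGT_zero
    refine h3.congr (fun n => ?_)
    simp only [hω, Pi.inv_apply, inv_div]
  refine squeeze_zero (fun N => by positivity) (fun N => ?_) (pair_density ω hlim)
  have : cntP (fun n => ¬ GoodK (k n) n) 0 N ≤ cntP (PairFail ω) 0 N := by
    apply cntP_imp
    intro n hn _ hbad
    have : ∃ t, t + 1 < k n ∧ t + 1 < n ∧ W (t + 1) n < W t n := by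
      by_contra hcon
      apply hbad
      apply good_of
      intro t h1 h2
      by_contra h3
      exact hcon ⟨t, h1, h2, not_le.1 h3⟩
    obtain ⟨t, h1, h2, h3⟩ := this
    refine ⟨t, t + 1, by omega, h2, ?_, h3⟩
    have e : t + 1 - t = 1 := by omega
    rw [e]
    have e2 : Nat.log 2 1 = 0 := by simp
    rw [e2]
    have hk2 : (((t + 1 : ℕ) : ℝ) + 1) ≤ k n := by exact_mod_cast h1
    have hn0 : (0 : ℝ) ≤ n := Nat.cast_nonneg n
    simp only [hω, Nat.cast_zero, zero_add, one_pow, mul_one, Nat.cast_one]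
    rw [mul_div_assoc', div_le_iff₀ (by positivity)]
    have h5 : (((t + 1 : ℕ) : ℝ) + 1) ^ 2 ≤ (k n : ℝ) ^ 2 + 1 := by
      have : (((t + 1 : ℕ) : ℝ) + 1) ^ 2 ≤ (k n : ℝ) ^ 2 := by gcongr
      linarith
    calc (((t + 1 : ℕ) : ℝ) + 1) ^ 2 * n ≤ ((k n : ℝ) ^ 2 + 1) * n := by gcongr
      _ = n * ((k n : ℝ) ^ 2 + 1) := by ring
  gcongr

end Pool.Agent.H95.SelS
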