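import Pool.Agent.H95.SelS.Lin

set_option autoImplicit false

/-! Doubling `n`: pair the elements, run the optimal algorithm on the smaller ones, finish among
`2 t + 1` elements. -/

namespace Pool.Agent.H95.SelS

open Pool.Agent.H78.SelU
open Pool.Agent.H78.SelU.DT

/-- compare `a i` with `b i` for all `i` in `I` -/
private theorem Half_cmp {m n : ℕ} (a b : Fin n → Fin m) (I : Finset (Fin n)) :
    Comp I.card (fun (σ : Equiv.Perm (Fin m)) (X : Finset (Fin n)) =>
      X = I.filter (fun i => σ (a i) < σ (b i))) := by
  classical
  induction I using Finset.induction_on with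
  | empty => exact Comp.ret' ∅ (fun σ => by simp) _
  | insert i I hi ih =>
    rw [Finset.card_insert_of_notMem hi]
    refine Comp.bind' ih (fun X _ => ?_)
    refine Comp.ask' (d := 0) (a i) (b i) ?_ ?_
    · refine Comp.ret' (insert i X) (fun σ h hX => ?_) _
      rw [Finset.filter_insert, if_pos h, hX]
    · refine Comp.ret' X (fun σ h hX => ?_) _
      rw [Finset.filter_insert, if_neg h, hX]

private theorem Half_cnt {m : ℕ} (σ : Equiv.Perm (Fin m)) (k : ℕ) (hk : k ≤ m) :
    (Finset.univ.filter (fun x => (σ x).val < k)).card = k := by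
  classical
  have h1 : (Finset.univ.filter (fun y : Fin m => y.val < k)).card = k := by
    rw [Fin.card_filter_val_lt]
    omega
  rw [← h1]
  refine Finset.card_bij (fun x _ => σ x) ?_ ?_ ?_
  · intro x hx
    simpa [h1] using hx
  · intro x _ y _ hxy
    exact σ.injective hxy
  · intro y hy
    refine ⟨σ.symm y, ?_, by simp⟩
    simpa [h1] using hy

/-- the selected element of `U` is the right one -/
private theorem Half_fin {m t : ℕ} (ht : t < m) (σ : Equiv.Perm (Fin m)) (U : Finset (Fin m))
    (hU : ∀ x, (σ x).val ≤ t → x ∈ U) (y : Fin m) (hy : (below σ U y).card = t) :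
    (σ y).val = t := by
  classical
  by_contra hne
  rcases lt_or_gt_of_ne hne with hlt | hgt
  · have h1 : below σ U y ⊆ Finset.univ.filter (fun x => (σ x).val < (σ y).val) := by
      intro x hx
      have := (Finset.mem_filter.mp hx).2
      exact Finset.mem_filter.mpr ⟨Finset.mem_univ _, this⟩
    have h2 := Finset.card_le_card h1
    rw [Half_cnt σ _ (σ y).isLt.le, hy] at h2
    omega
  · have h1 : Finset.univ.filter (fun x => (σ x).val < t + 1) ⊆ below σ U y := by
      intro x hx
      have h3 := (Finset.mem_filter.mp hx).2
      refine Finset.mem_filter.mpr ⟨hU x (by omega), ?_⟩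
      show (σ x).val < (σ y).val
      omega
    have h2 := Finset.card_le_card h1
    rw [Half_cnt σ _ (by omega), hy] at h2
    omega

/-- the winners before the winner of rank `t` -/
private theorem Half_win {m t : ℕ} (σ : Equiv.Perm (Fin m)) (W0 : Finset (Fin m)) (z : Fin m)
    (hz : (below σ W0 z).card = t) (w : Fin m) (hw : w ∈ W0) :
    ((σ w).val < t → w ∈ below σ W0 z) ∧ ((σ w).val ≤ t → w = z ∨ w ∈ below σ W0 z) := by
  classical
  have key : ∀ k : ℕ, k ≤ m → (insert z (below σ W0 z)) ⊆
      Finset.univ.filter (fun x => (σ x).val < k) → t + 1 ≤ k := by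
    intro k hk hsub
    have h2 := Finset.card_le_card hsub
    rw [Half_cnt σ _ hk, Finset.card_insert_of_notMem (by
      intro hmem
      exact lt_irrefl _ (Finset.mem_filter.mp hmem).2), hz] at h2
    exact h2
  constructor
  · intro hlt
    by_contra hn
    have h1 : ¬ σ w < σ z := fun hh => hn (Finset.mem_filter.mpr ⟨hw, hh⟩)
    have h1' : (σ z).val ≤ (σ w).val := by
      have := not_lt.mp h1
      exact this
    have := key ((σ w).val + 1) (σ w).isLt (by
      intro x hx
      refine Finset.mem_filter.mpr ⟨Finset.mem_univ _, ?_⟩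
      rcases Finset.mem_insert.mp hx with rfl | hx
      · show (σ x).val < (σ w).val + 1
        omega
      · have h3 : (σ x).val < (σ z).val := (Finset.mem_filter.mp hx).2
        show (σ x).val < (σ w).val + 1
        omega)
    omega
  · intro hle
    by_contra hn
    rw [not_or] at hn
    have h1 : ¬ σ w < σ z := fun hh => hn.2 (Finset.mem_filter.mpr ⟨hw, hh⟩)
    have h1' : (σ z).val ≤ (σ w).val := not_lt.mp h1
    have h1'' : (σ z).val ≠ (σ w).val := fun hh =>
      hn.1 (σ.injective (Fin.ext hh)).symm
    have := key ((σ w).val) (σ w).isLt.le (by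
      intro x hx
      refine Finset.mem_filter.mpr ⟨Finset.mem_univ _, ?_⟩
      rcases Finset.mem_insert.mp hx with rfl | hx
      · omega
      · have h3 : (σ x).val < (σ z).val := (Finset.mem_filter.mp hx).2
        omega)
    omega

theorem W_double {t n : ℕ} (h : t < n) : W t (2 * n) ≤ n + W t n + 40 * (2 * t + 1) := by
  classical
  have h2 : t < 2 * n := by omega
  rw [W_eq h2]
  apply V_le
  let lo : Fin n → Fin (2 * n) := fun i => ⟨i.val, by omega⟩
  let hi : Fin n → Fin (2 * n) := fun i => ⟨n + i.val, by omega⟩
  let pt : Fin (2 * n) → Fin (2 * n) := fun x =>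
    if hx : x.val < n then ⟨n + x.val, by omega⟩ else ⟨x.val - n, by omega⟩
  have pt_lo : ∀ i, pt (lo i) = hi i := by
    intro i
    simp only [pt, lo, hi, i.isLt, dif_pos]
  have pt_hi : ∀ i, pt (hi i) = lo i := by
    intro i
    have : ¬ (n + i.val < n) := by omega
    simp only [pt, lo, hi, this, dif_neg, not_false_eq_true]
    apply Fin.ext
    simp
  have cases_x : ∀ x : Fin (2 * n), ∃ i, x = lo i ∨ x = hi i := by
    intro x
    by_cases hx : x.val < n
    · exact ⟨⟨x.val, hx⟩, Or.inl (Fin.ext rfl)⟩
    · refine ⟨⟨x.val - n, by omega⟩, Or.inr (Fin.ext ?_)⟩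
      show x.val = n + (x.val - n)
      omega
  have lohi : ∀ i j, lo i ≠ hi j := by
    intro i j hij
    have := congrArg Fin.val hij
    simp only [lo, hi] at this
    omega
  have lo_inj : ∀ i j, lo i = lo j → i = j := by
    intro i j hij
    have := congrArg Fin.val hij
    simp only [lo] at this
    exact Fin.ext this
  have hi_inj : ∀ i j, hi i = hi j → i = j := by
    intro i j hij
    have := congrArg Fin.val hij
    simp only [hi] at this
    exact Fin.ext (by omega)
  -- stage one
  have s1 := Half_cmp lo hi (Finset.univ : Finset (Fin n))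
  rw [Finset.card_univ, Fintype.card_fin] at s1
  have goal : Comp (n + (W t n + 40 * (2 * t + 1)))
      (fun (σ : Equiv.Perm (Fin (2 * n))) (y : Fin (2 * n)) => σ y = ⟨t, h2⟩) := by
    refine Comp.bind' s1 (fun X _ => ?_)
    let win : Fin n → Fin (2 * n) := fun i => if i ∈ X then lo i else hi i
    have win_inj : Function.Injective win := by
      intro i j hij
      simp only [win] at hij
      split_ifs at hij
      · exact lo_inj _ _ hij
      · exact absurd hij (lohi _ _)
      · exact absurd hij.symm (lohi _ _)
      · exact hi_inj _ _ hij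
    have s2 := sel_of_tsuff ⟨t, h⟩ (V n ⟨t, h⟩) (V_spec _) (Finset.univ.image win)
      (by rw [Finset.card_image_of_injective _ win_inj, Finset.card_univ, Fintype.card_fin])
    rw [W_eq h]
    refine Comp.bind' s2 (fun zT hzT => ?_)
    obtain ⟨z, T⟩ := zT
    obtain ⟨σ0, hz0, hT0, hc0⟩ := hzT
    simp only at hz0 hT0 hc0
    have hzT : z ∉ T := by
      rw [hT0]
      intro hmem
      exact lt_irrefl _ (Finset.mem_filter.mp hmem).2
    let U : Finset (Fin (2 * n)) := insert z (T ∪ T.image pt)
    have hU1 : U.card ≤ 2 * t + 1 := by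
      have a1 := Finset.card_insert_le z (T ∪ T.image pt)
      have a2 := Finset.card_union_le T (T.image pt)
      have a3 := Finset.card_image_le (s := T) (f := pt)
      show (insert z (T ∪ T.image pt)).card ≤ 2 * t + 1
      omega
    have hU2 : t < U.card := by
      have a1 : insert z T ⊆ U := Finset.insert_subset_insert _ Finset.subset_union_left
      have a2 := Finset.card_le_card a1
      rw [Finset.card_insert_of_notMem hzT] at a2
      omega
    refine (sel_linear U t hU2).mono (by omega) ?_
    rintro σ y ⟨_, hy⟩ ⟨hz, hT, hc⟩ hX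
    simp only at hz hT hc
    apply Fin.ext
    show (σ y).val = t
    refine Half_fin h2 σ U ?_ y hy
    intro x hx
    -- the winner of a pair
    have hwin : ∀ i, (i ∈ X ↔ σ (lo i) < σ (hi i)) := by
      intro i
      rw [hX]
      simp
    have hmemW : ∀ i, win i ∈ Finset.univ.image win := fun i =>
      Finset.mem_image_of_mem _ (Finset.mem_univ _)
    have hrank : (below σ (Finset.univ.image win) z).card = t := by
      rw [← hT]
      exact hc
    have main : ∀ i, (x = win i → x ∈ U) ∧ (x = pt (win i) → σ (win i) < σ x → x ∈ U) := by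
      intro i
      obtain ⟨w1, w2⟩ := Half_win σ (Finset.univ.image win) z hrank (win i) (hmemW i)
      rw [← hT] at w1 w2
      constructor
      · intro hxi
        rw [← hxi] at w2
        rcases w2 hx with hh | hh
        · rw [hh]
          exact Finset.mem_insert_self _ _
        · exact Finset.mem_insert_of_mem (Finset.mem_union_left _ hh)
      · intro hxi hlt
        have hlt' : (σ (win i)).val < (σ x).val := hlt
        have := w1 (by omega)
        refine Finset.mem_insert_of_mem (Finset.mem_union_right _ ?_)
        rw [hxi]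
        exact Finset.mem_image_of_mem _ this
    obtain ⟨i, hi'⟩ := cases_x x
    by_cases hiX : i ∈ X
    · have e1 : win i = lo i := by simp only [win, if_pos hiX]
      rcases hi' with hxx | hxx
      · exact (main i).1 (by rw [e1]; exact hxx)
      · refine (main i).2 (by rw [e1, pt_lo]; exact hxx) ?_
        rw [e1, hxx]
        exact (hwin i).mp hiX
    · have e1 : win i = hi i := by simp only [win, if_neg hiX]
      rcases hi' with hxx | hxx
      · refine (main i).2 (by rw [e1, pt_hi]; exact hxx) ?_
        rw [e1, hxx]
        have h3 : ¬ σ (lo i) < σ (hi i) := fun hh => hiX ((hwin i).mpr hh)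
        refine lt_of_le_of_ne (not_lt.mp h3) ?_
        intro hh
        exact lohi i i (σ.injective hh).symm
      · exact (main i).1 (by rw [e1]; exact hxx)
  obtain ⟨T, hT1, hT2⟩ := goal
  exact ⟨T, by omega, hT2⟩

end Pool.Agent.H95.SelS
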