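import Pool.Agent.H95.SelS.Med

set_option autoImplicit false

/-! Linear selection (Blum, Floyd, Pratt, Rivest, Tarjan) in the comparison tree model. -/

namespace Pool.Agent.H95.SelS

open Pool.Agent.H78.SelU
open Pool.Agent.H78.SelU.DT

private theorem Lin_small {m : ℕ} (S : Finset (Fin m)) (r : ℕ) (hr : r < S.card)
    (h64 : S.card ≤ 64) :
    Comp (40 * S.card) (fun (σ : Equiv.Perm (Fin m)) (x : Fin m) =>
      x ∈ S ∧ (below σ S x).card = r) := by
  have h := sel_of_tsuff (⟨r, hr⟩ : Fin S.card) _ (tsuff_tournament S.card ⟨r, hr⟩) S rfl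
  have h2 := h.map' (Q := fun (σ : Equiv.Perm (Fin m)) (x : Fin m) =>
      x ∈ S ∧ (below σ S x).card = r) Prod.fst (by
    rintro σ b ⟨h1, h2, h3⟩
    exact ⟨h1, by rw [← h2, h3]⟩)
  refine h2.mono ?_ (fun _ _ hb => hb)
  have hc : Nat.clog 2 S.card ≤ 6 := Nat.clog_le_of_le_pow (by simpa using h64)
  have hmul : r * (Nat.clog 2 S.card - 1) ≤ r * 5 := Nat.mul_le_mul_left _ (by omega)
  simp only
  omega

private theorem Lin_left {m : ℕ} {S X : Finset (Fin m)} {p x : Fin m}
    {σ : Equiv.Perm (Fin m)} (hX : X = below σ S p) (hx : x ∈ X) :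
    x ∈ S ∧ below σ S x = below σ X x := by
  subst hX
  simp only [below, Finset.mem_filter] at hx ⊢
  refine ⟨hx.1, ?_⟩
  ext y
  simp only [Finset.mem_filter]
  constructor
  · rintro ⟨h1, h2⟩
    exact ⟨⟨h1, h2.trans hx.2⟩, h2⟩
  · rintro ⟨⟨h1, _⟩, h2⟩
    exact ⟨h1, h2⟩

private theorem Lin_right {m : ℕ} {S X : Finset (Fin m)} {p x : Fin m}
    {σ : Equiv.Perm (Fin m)} (hX : X = below σ S p) (hp : p ∈ S) (hx : x ∈ (S \ X).erase p) :
    x ∈ S ∧ (below σ S x).card = X.card + 1 + (below σ ((S \ X).erase p) x).card := by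
  have hx' := hx
  simp only [Finset.mem_erase, Finset.mem_sdiff] at hx'
  obtain ⟨hxp, hxS, hxX⟩ := hx'
  have hlt : σ p < σ x := by
    rcases lt_trichotomy (σ p) (σ x) with h | h | h
    · exact h
    · exact absurd (σ.injective h).symm hxp
    · exact absurd (by rw [hX]; simp only [below, Finset.mem_filter]; exact ⟨hxS, h⟩) hxX
  refine ⟨hxS, ?_⟩
  have hpX : p ∉ X := by
    rw [hX]; simp [below]
  have hE : below σ S x = insert p X ∪ below σ ((S \ X).erase p) x := by
    ext y
    simp only [below, Finset.mem_filter, Finset.mem_union, Finset.mem_insert, Finset.mem_erase,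
      Finset.mem_sdiff]
    constructor
    · rintro ⟨h1, h2⟩
      by_cases hyp : y = p
      · exact Or.inl (Or.inl hyp)
      · by_cases hyX : y ∈ X
        · exact Or.inl (Or.inr hyX)
        · exact Or.inr ⟨⟨hyp, h1, hyX⟩, h2⟩
    · rintro ((h | h) | ⟨⟨_, h, _⟩, h2⟩)
      · subst h
        exact ⟨hp, hlt⟩
      · rw [hX] at h
        simp only [below, Finset.mem_filter] at h
        exact ⟨h.1, h.2.trans hlt⟩
      · exact ⟨h, h2⟩
  rw [hE, Finset.card_union_of_disjoint, Finset.card_insert_of_notMem hpX]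
  rw [Finset.disjoint_left]
  intro y hy hy2
  simp only [below, Finset.mem_filter, Finset.mem_insert, Finset.mem_erase,
    Finset.mem_sdiff] at hy hy2
  rcases hy with h | h
  · exact hy2.1.1 h
  · exact hy2.1.2.2 h

private theorem Lin_bounds {m : ℕ} {S M X : Finset (Fin m)} {p : Fin m}
    {σ : Equiv.Perm (Fin m)} (hX : X = below σ S p) (hp : p ∈ M) (hpS : p ∈ S) {q : ℕ}
    (hM : M.card = q) (hr : (below σ M p).card = q / 2)
    (h1 : 3 * (M.filter (fun x => σ x ≤ σ p)).card ≤ (S.filter (fun x => σ x ≤ σ p)).card)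
    (h2 : 3 * (M.filter (fun x => σ p ≤ σ x)).card ≤ (S.filter (fun x => σ p ≤ σ x)).card) :
    X.card + 3 * (q / 2) ≤ S.card ∧ 3 * (q / 2) ≤ X.card + 1 := by
  have hle : ∀ T : Finset (Fin m), p ∈ T →
      (T.filter (fun x => σ x ≤ σ p)).card = (below σ T p).card + 1 := by
    intro T hT
    have : T.filter (fun x => σ x ≤ σ p) = insert p (below σ T p) := by
      ext y
      simp only [below, Finset.mem_filter, Finset.mem_insert]
      constructor
      · rintro ⟨ha, hb⟩
        rcases hb.lt_or_eq with h | h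
        · exact Or.inr ⟨ha, h⟩
        · exact Or.inl (σ.injective h)
      · rintro (h | ⟨ha, hb⟩)
        · subst h
          exact ⟨hT, le_refl _⟩
        · exact ⟨ha, hb.le⟩
    rw [this, Finset.card_insert_of_notMem (by simp [below])]
  have hge : ∀ T : Finset (Fin m),
      (T.filter (fun x => σ p ≤ σ x)).card + (below σ T p).card = T.card := by
    intro T
    have := Finset.card_filter_add_card_filter_not (s := T) (fun x => σ x < σ p)
    simp only [not_lt] at this
    simp only [below]
    omega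
  have e1 := hle M hp
  have e2 := hle S hpS
  have e3 := hge M
  have e4 := hge S
  rw [← hX] at e2 e4
  omega

theorem sel_linear {m : ℕ} (S : Finset (Fin m)) (r : ℕ) (hr : r < S.card) :
    Comp (40 * S.card) (fun (σ : Equiv.Perm (Fin m)) (x : Fin m) =>
      x ∈ S ∧ (below σ S x).card = r) := by
  induction hc : S.card using Nat.strong_induction_on generalizing S r with
  | _ c ih =>
    by_cases h64 : c ≤ 64
    · have := Lin_small S r hr (by omega)
      rwa [hc] at this
    · set q := c / 5 with hq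
      have hq13 : 13 ≤ q := by omega
      have hcost : 8 * q + (40 * q + ((c - 1) + 40 * (c - 3 * (q / 2)))) ≤ 40 * c := by omega
      refine Comp.mono (P := fun (σ : Equiv.Perm (Fin m)) (x : Fin m) =>
        x ∈ S ∧ (below σ S x).card = r) ?_ hcost (fun _ _ h => h)
      have hmed := medians S
      rw [hc, ← hq] at hmed
      refine hmed.bind' ?_
      rintro M ⟨σ0, hMS, hMc, _⟩
      have hpiv := ih q (by omega) M (q / 2) (by omega) hMc
      refine Comp.bind' hpiv ?_
      rintro p ⟨σ1, hpM, _⟩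
      have hpS : p ∈ S := hMS hpM
      have hpart := part_tree S p hpS
      rw [hc] at hpart
      refine Comp.bind' hpart ?_
      rintro X -
      by_cases hex : ∃ σ : Equiv.Perm (Fin m), X = below σ S p ∧
          (p ∈ M ∧ (below σ M p).card = q / 2) ∧ (M ⊆ S ∧ M.card = q ∧ ∀ p : Fin m,
        3 * (M.filter (fun x => σ x ≤ σ p)).card ≤ (S.filter (fun x => σ x ≤ σ p)).card ∧
        3 * (M.filter (fun x => σ p ≤ σ x)).card ≤ (S.filter (fun x => σ p ≤ σ x)).card)
      · obtain ⟨σ, hX, ⟨_, hpr⟩, _, _, hall⟩ := hex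
        obtain ⟨hb1, hb2⟩ := Lin_bounds hX hpM hpS hMc hpr (hall p).1 (hall p).2
        have hXS : X ⊆ S := by rw [hX]; exact Finset.filter_subset _ _
        have hpX : p ∉ X := by rw [hX]; simp [below]
        have hY : ((S \ X).erase p).card = c - X.card - 1 := by
          rw [Finset.card_erase_of_mem (by simp [hpS, hpX]), Finset.card_sdiff_of_subset hXS, hc]
        have hXc : X.card < c := by omega
        rcases lt_trichotomy r X.card with hlt | heq | hgt
        · refine (ih X.card hXc X r hlt rfl).mono (by omega) ?_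
          rintro τ x ⟨hx, hxr⟩ hXτ _ _
          obtain ⟨h1, h2⟩ := Lin_left hXτ hx
          exact ⟨h1, by rw [h2]; exact hxr⟩
        · refine Comp.ret' p ?_ _
          rintro τ hXτ _ _
          exact ⟨hpS, by rw [← hXτ]; exact heq.symm⟩
        · refine (ih (c - X.card - 1) (by omega) ((S \ X).erase p) (r - X.card - 1)
            (by omega) hY).mono (by omega) ?_
          rintro τ x ⟨hx, hxr⟩ hXτ _ _
          obtain ⟨h1, h2⟩ := Lin_right hXτ hpS hx
          exact ⟨h1, by omega⟩
      · refine Comp.ret' p ?_ _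
        intro τ h1 h2 h3
        exact absurd ⟨τ, h1, h2, h3⟩ hex

end Pool.Agent.H95.SelS
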