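import Pool.Agent.H95.SelS.Good
import Pool.Agent.H95.SelS.DensB

set_option autoImplicit false

/-! Assembly: unimodality of the selection complexities at all scales, for almost all `n`. -/

namespace Pool.Agent.H95.SelS

open Filter Topology
open Pool.Agent.H78.SelU (V_rev W_eq GoodK E_card)

theorem ncard_le_cnt (P : ℕ → Prop) (S : Set ℕ) (N M : ℕ) (h : ∀ n ∈ S, N < n ∧ n ≤ M ∧ P n) :
    S.ncard ≤ cntP P N M := by
  classical
  unfold cntP
  rw [← Set.ncard_coe_finset]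
  refine Set.ncard_le_ncard ?_ (Finset.finite_toSet _)
  intro n hn
  rw [Finset.mem_coe, Finset.mem_filter, Finset.mem_Ioc]
  exact ⟨⟨(h n hn).1, (h n hn).2.1⟩, (h n hn).2.2⟩

theorem main :
    ∀ V : (n : ℕ) → Fin n → ℕ,
      (V = fun n t => sInf {k : ℕ | ∃ (q : List Bool → Fin n × Fin n) (o : List Bool → Fin n),
          ∀ σ : Equiv.Perm (Fin n), ∀ h : List Bool, h.length = k →
            (∀ (i : ℕ) (hi : i < h.length),
              h[i]'hi = decide (σ (q (h.take i)).1 < σ (q (h.take i)).2)) →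
            σ (o h) = t}) →
      (∀ t N : ℕ, {n : ℕ | n ≤ N ∧ ∃ h : t + 1 < n,
          V n ⟨t + 1, h⟩ < V n ⟨t, Nat.lt_of_succ_lt h⟩}.ncard ≤ t * (Nat.clog 2 N - 1)) ∧
      (∀ t N : ℕ, {n : ℕ | N < n ∧ n ≤ 2 * N ∧ ∃ h : t + 1 < n,
          V n ⟨t + 1, h⟩ < V n ⟨t, Nat.lt_of_succ_lt h⟩}.ncard ≤ 120 * t) ∧
      (∀ N k s : ℕ, 1 ≤ s → {n : ℕ | N < n ∧ n ≤ 2 * N ∧ ∃ a b : Fin n,
          b.val < k ∧ a.val + s ≤ b.val ∧ V n b < V n a}.ncard * s ≤ 23040 * k ^ 2) ∧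
      (∀ N k s : ℕ, 1 ≤ s → {n : ℕ | N < n ∧ n ≤ 2 * N ∧ ∃ a b : Fin n,
          b.val < k ∧ a < b ∧ V n b + s ≤ V n a}.ncard * s ≤
            34560 * k ^ 2 * (Nat.log 2 s + 1)) ∧
      (∀ k : ℕ → ℕ, Tendsto (fun n : ℕ => (k n : ℝ) ^ 2 / n) atTop (𝓝 0) →
        Tendsto (fun N : ℕ => ({n : ℕ | n ≤ N ∧ ¬ ∀ a b : Fin n,
            (a ≤ b → b.val < k n → V n a ≤ V n b) ∧
            (a ≤ b → n ≤ a.val + k n → V n b ≤ V n a)}.ncard : ℝ) / N) atTop (𝓝 0)) ∧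
      (∀ ω : ℕ → ℝ, Tendsto ω atTop atTop →
        Tendsto (fun N : ℕ => ({n : ℕ | n ≤ N ∧ ¬ ∀ a b : Fin n, a < b →
            ((b.val : ℝ) + 1) ^ 2 * (((min (Nat.log 2 (b.val - a.val))
              (Nat.log 2 (n / (b.val + 1))) : ℕ) : ℝ) + 1) ^ 2 * ω n ≤
              n * ((b.val - a.val : ℕ) : ℝ) →
            V n a ≤ V n b ∧ V n a.rev ≤ V n b.rev}.ncard : ℝ) / N) atTop (𝓝 0)) ∧
      (∀ ω : ℕ → ℝ, Tendsto ω atTop atTop →
        Tendsto (fun N : ℕ => ({n : ℕ | n ≤ N ∧ ¬ ∀ a b : Fin n, a < b → V n b < V n a →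
            n * ((V n a - V n b : ℕ) : ℝ) ≤
              ω n * ((b.val : ℝ) + 1) ^ 2 * ((Nat.log 2 (n / (b.val + 1)) : ℝ) + 1) ^ 2 *
                ((Nat.log 2 (V n a - V n b) : ℝ) + 1)}.ncard : ℝ) / N) atTop (𝓝 0)) ∧
      (∀ ω : ℕ → ℝ, Tendsto ω atTop atTop →
        Tendsto (fun N : ℕ => ({n : ℕ | n ≤ N ∧ ¬ ∀ K : ℕ, 1 ≤ K → K ≤ n →
            ({t : ℕ | t < K ∧ ∃ h : t + 1 < n,
              V n ⟨t + 1, h⟩ < V n ⟨t, Nat.lt_of_succ_lt h⟩}.ncard : ℝ) * n ≤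
            ω n * (K : ℝ) ^ 2 * ((Nat.log 2 (n / K) : ℝ) + 1) ^ 2}.ncard : ℝ) / N) atTop (𝓝 0)) := by
  classical
  intro V hV
  have hV' : V = fun n t => Pool.Agent.H78.SelU.V n t := hV
  subst hV'
  refine ⟨fun t N => ?_, fun t N => ?_, fun N k s hs => ?_, fun N k s hs => ?_, fun k hk => ?_,
    fun ω hω => ?_, fun ω hω => ?_, fun ω hω => ?_⟩
  · refine le_trans ?_ (Pool.Agent.H78.SelU.E_card t N)
    rw [← Set.ncard_coe_finset (Pool.Agent.H78.SelU.E t N)]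
    refine Set.ncard_le_ncard ?_ (Finset.finite_toSet _)
    rintro n ⟨h1, h2, h3⟩
    rw [Finset.mem_coe]
    unfold Pool.Agent.H78.SelU.E
    rw [Finset.mem_filter, Finset.mem_Ioc]
    refine ⟨⟨h2, by omega⟩, ?_⟩
    rw [W_eq h2, W_eq (Nat.lt_of_succ_lt h2)]
    exact h3
  · refine le_trans ?_ (row_card t N)
    rw [← Set.ncard_coe_finset]
    refine Set.ncard_le_ncard ?_ (Finset.finite_toSet _)
    rintro n ⟨h0, h1, h2, h3⟩
    rw [Finset.mem_coe, Finset.mem_filter, Finset.mem_Ioc]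
    refine ⟨⟨h0, h1⟩, h2, ?_⟩
    rw [W_eq h2, W_eq (Nat.lt_of_succ_lt h2)]
    exact h3
  · refine le_trans (Nat.mul_le_mul_right s ?_) (bad_card (N := N) (k := k) hs)
    rw [← Set.ncard_coe_finset]
    refine Set.ncard_le_ncard ?_ (Finset.finite_toSet _)
    rintro n ⟨h0, h1, a, b, hb, hab, h3⟩
    rw [Finset.mem_coe, mem_Bad]
    refine ⟨⟨h0, h1⟩, a.val, b.val, by omega, hb, b.isLt, by omega, ?_⟩
    rw [W_eq a.isLt, W_eq b.isLt]
    exact h3
  · refine le_trans (Nat.mul_le_mul_right s ?_) (drop_card (N := N) (k := k) hs)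
    rw [← Set.ncard_coe_finset]
    refine Set.ncard_le_ncard ?_ (Finset.finite_toSet _)
    rintro n ⟨h0, h1, a, b, hb, hab, h3⟩
    rw [Finset.mem_coe, mem_Drop]
    refine ⟨⟨h0, h1⟩, a.val, b.val, hab, hb, b.isLt, ?_⟩
    rw [W_eq a.isLt, W_eq b.isLt]
    exact h3
  · refine squeeze_zero (fun N => by positivity) (fun N => ?_) (good_density k hk)
    have : {n : ℕ | n ≤ N ∧ ¬ ∀ a b : Fin n,
            (a ≤ b → b.val < k n → Pool.Agent.H78.SelU.V n a ≤ Pool.Agent.H78.SelU.V n b) ∧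
            (a ≤ b → n ≤ a.val + k n →
              Pool.Agent.H78.SelU.V n b ≤ Pool.Agent.H78.SelU.V n a)}.ncard ≤
        cntP (fun n => ¬ GoodK (k n) n) 0 N := by
      apply ncard_le_cnt
      rintro n ⟨h1, h2⟩
      refine ⟨?_, h1, h2⟩
      rcases Nat.eq_zero_or_pos n with h | h
      · subst h
        exact absurd (fun a => a.elim0) h2
      · exact h
    gcongr
  · refine squeeze_zero (fun N => by positivity) (fun N => ?_) (pairM_density ω hω)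
    have : {n : ℕ | n ≤ N ∧ ¬ ∀ a b : Fin n, a < b →
            ((b.val : ℝ) + 1) ^ 2 * (((min (Nat.log 2 (b.val - a.val))
              (Nat.log 2 (n / (b.val + 1))) : ℕ) : ℝ) + 1) ^ 2 * ω n ≤
              n * ((b.val - a.val : ℕ) : ℝ) →
            Pool.Agent.H78.SelU.V n a ≤ Pool.Agent.H78.SelU.V n b ∧
            Pool.Agent.H78.SelU.V n a.rev ≤ Pool.Agent.H78.SelU.V n b.rev}.ncard ≤
        cntP (PairFailM ω) 0 N := by
      apply ncard_le_cnt
      rintro n ⟨h1, h2⟩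
      push Not at h2
      obtain ⟨a, b, hab, hlim, hfail⟩ := h2
      rw [Nat.cast_min] at hlim
      refine ⟨by have := a.isLt; omega, h1, a.val, b.val, hab, b.isLt, hlim, ?_⟩
      rw [W_eq a.isLt, W_eq b.isLt]
      by_contra hcon
      have h3 := not_lt.1 hcon
      have h4 := hfail h3
      rw [V_rev, V_rev] at h4
      exact absurd h3 (not_le.2 h4)
    gcongr
  · refine squeeze_zero (fun N => by positivity) (fun N => ?_) (drop_density ω hω)
    have : {n : ℕ | n ≤ N ∧ ¬ ∀ a b : Fin n, a < b →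
            Pool.Agent.H78.SelU.V n b < Pool.Agent.H78.SelU.V n a →
            n * ((Pool.Agent.H78.SelU.V n a - Pool.Agent.H78.SelU.V n b : ℕ) : ℝ) ≤
              ω n * ((b.val : ℝ) + 1) ^ 2 * ((Nat.log 2 (n / (b.val + 1)) : ℝ) + 1) ^ 2 *
                ((Nat.log 2 (Pool.Agent.H78.SelU.V n a - Pool.Agent.H78.SelU.V n b) : ℝ) +
                  1)}.ncard ≤
        cntP (DropFail ω) 0 N := by
      apply ncard_le_cnt
      rintro n ⟨h1, h2⟩
      push Not at h2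
      obtain ⟨a, b, hab, hlt, hlim⟩ := h2
      refine ⟨by have := a.isLt; omega, h1, a.val, b.val, hab, b.isLt, ?_, ?_⟩
      · rw [W_eq a.isLt, W_eq b.isLt]
        exact hlt
      · rw [W_eq a.isLt, W_eq b.isLt]
        exact hlim
    gcongr
  · refine squeeze_zero (fun N => by positivity) (fun N => ?_) (many_density ω hω)
    have : {n : ℕ | n ≤ N ∧ ¬ ∀ K : ℕ, 1 ≤ K → K ≤ n →
            ({t : ℕ | t < K ∧ ∃ h : t + 1 < n, Pool.Agent.H78.SelU.V n ⟨t + 1, h⟩ <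
              Pool.Agent.H78.SelU.V n ⟨t, Nat.lt_of_succ_lt h⟩}.ncard : ℝ) * n ≤
            ω n * (K : ℝ) ^ 2 * ((Nat.log 2 (n / K) : ℝ) + 1) ^ 2}.ncard ≤
        cntP (ManyDesc ω) 0 N := by
      apply ncard_le_cnt
      rintro n ⟨h1, h2⟩
      push Not at h2
      obtain ⟨K, hK1, hKn, hlim⟩ := h2
      refine ⟨by omega, h1, K, hK1, hKn, lt_of_lt_of_le hlim ?_⟩
      have : {t : ℕ | t < K ∧ ∃ h : t + 1 < n, Pool.Agent.H78.SelU.V n ⟨t + 1, h⟩ <
              Pool.Agent.H78.SelU.V n ⟨t, Nat.lt_of_succ_lt h⟩}.ncard ≤ desc n K := by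
        unfold desc
        rw [← Set.ncard_coe_finset]
        refine Set.ncard_le_ncard ?_ (Finset.finite_toSet _)
        rintro t ⟨h3, h4, h5⟩
        rw [Finset.mem_coe, Finset.mem_filter, Finset.mem_range]
        refine ⟨h3, h4, ?_⟩
        rw [W_eq h4, W_eq (Nat.lt_of_succ_lt h4)]
        exact h5
      gcongr
    gcongr

end Pool.Agent.H95.SelS
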