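import Pool.Agent.H95.SelS.Relabel

set_option autoImplicit false

/-! Partition by a pivot; the medians of groups of five. -/

namespace Pool.Agent.H95.SelS

open Pool.Agent.H78.SelU
open Pool.Agent.H78.SelU.DT

private theorem Med_part_aux {m : ℕ} (p : Fin m) (L : Finset (Fin m)) :
    Comp L.card (fun (σ : Equiv.Perm (Fin m)) (X : Finset (Fin m)) =>
      X = L.filter (fun y => σ y < σ p)) := by
  classical
  induction L using Finset.induction_on with
  | empty => exact Comp.ret' ∅ (fun σ => by simp) _
  | insert a L ha ih =>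
    rw [Finset.card_insert_of_notMem ha]
    refine Comp.ask' a p ?_ ?_
    · refine ih.map' (fun X => insert a X) ?_
      intro σ X hX h
      rw [hX, Finset.filter_insert, if_pos h]
    · refine ih.map' (fun X => X) ?_
      intro σ X hX h
      rw [hX, Finset.filter_insert, if_neg h]

/-- compare all the other elements of `S` with `p` -/
theorem part_tree {m : ℕ} (S : Finset (Fin m)) (p : Fin m) (hp : p ∈ S) :
    Comp (S.card - 1) (fun (σ : Equiv.Perm (Fin m)) (X : Finset (Fin m)) => X = below σ S p) := by
  classical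
  refine (Med_part_aux p (S.erase p)).mono (le_of_eq (Finset.card_erase_of_mem hp)) ?_
  intro σ X hX
  rw [hX]
  ext y
  simp only [below, Finset.mem_filter, Finset.mem_erase]
  constructor
  · rintro ⟨⟨_, h1⟩, h2⟩
    exact ⟨h1, h2⟩
  · rintro ⟨h1, h2⟩
    refine ⟨⟨?_, h1⟩, h2⟩
    rintro rfl
    exact absurd h2 (lt_irrefl _)

/-- the median of a group of five -/
theorem med_five {m : ℕ} (G : Finset (Fin m)) (hG : G.card = 5) :
    Comp 8 (fun (σ : Equiv.Perm (Fin m)) (x : Fin m) => x ∈ G ∧ (below σ G x).card = 2) := by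
  have h := tsuff_tournament 5 2
  have hc : Nat.clog 2 5 = 3 := by decide
  rw [hc] at h
  have h8 : TSuff 5 2 8 := h
  refine (sel_of_tsuff (2 : Fin 5) 8 h8 G hG).map' Prod.fst ?_
  intro σ b hb
  obtain ⟨h1, h2, h3⟩ := hb
  refine ⟨h1, ?_⟩
  rw [← h2, h3]
  rfl

/-- one step: the group `G` with its median `x` -/
private theorem Med_step {m : ℕ} (σ : Equiv.Perm (Fin m)) (S G M : Finset (Fin m)) (x : Fin m)
    (hGS : G ⊆ S) (hG : G.card = 5) (hx : x ∈ G) (hxc : (below σ G x).card = 2)
    (hM : M ⊆ S \ G) (hMc : M.card = (S \ G).card / 5)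
    (h : ∀ p : Fin m,
        3 * (M.filter (fun x => σ x ≤ σ p)).card ≤ ((S \ G).filter (fun x => σ x ≤ σ p)).card ∧
        3 * (M.filter (fun x => σ p ≤ σ x)).card ≤ ((S \ G).filter (fun x => σ p ≤ σ x)).card) :
    insert x M ⊆ S ∧ (insert x M).card = S.card / 5 ∧ ∀ p : Fin m,
        3 * ((insert x M).filter (fun x => σ x ≤ σ p)).card
          ≤ (S.filter (fun x => σ x ≤ σ p)).card ∧
        3 * ((insert x M).filter (fun x => σ p ≤ σ x)).card
          ≤ (S.filter (fun x => σ p ≤ σ x)).card := by
  classical
  have hxM : x ∉ M := fun hh => (Finset.mem_sdiff.1 (hM hh)).2 hx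
  have hcard : (S \ G).card = S.card - 5 := by
    rw [Finset.card_sdiff_of_subset hGS, hG]
  have h5 : 5 ≤ S.card := by
    rw [← hG]; exact Finset.card_le_card hGS
  have hsplit : ∀ (P : Fin m → Prop) [DecidablePred P],
      (S.filter P).card = ((S \ G).filter P).card + (G.filter P).card := by
    intro P _
    rw [← Finset.card_union_of_disjoint, ← Finset.filter_union,
      Finset.sdiff_union_of_subset hGS]
    exact Finset.disjoint_filter_filter Finset.sdiff_disjoint
  refine ⟨?_, ?_, ?_⟩
  · intro y hy
    rcases Finset.mem_insert.1 hy with rfl | hy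
    · exact hGS hx
    · exact (Finset.mem_sdiff.1 (hM hy)).1
  · rw [Finset.card_insert_of_notMem hxM, hMc, hcard]
    omega
  · intro p
    obtain ⟨h1, h2⟩ := h p
    rw [hsplit, hsplit, Finset.filter_insert, Finset.filter_insert]
    constructor
    · split_ifs with hc
      · have h3 : 3 ≤ (G.filter (fun y => σ y ≤ σ p)).card := by
          have h4 : insert x (below σ G x) ⊆ G.filter (fun y => σ y ≤ σ p) := by
            intro y hy
            rcases Finset.mem_insert.1 hy with rfl | hy
            · exact Finset.mem_filter.2 ⟨hx, hc⟩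
            · obtain ⟨h5, h6⟩ := Finset.mem_filter.1 hy
              exact Finset.mem_filter.2 ⟨h5, h6.le.trans hc⟩
          have h7 := Finset.card_le_card h4
          rw [Finset.card_insert_of_notMem, hxc] at h7
          · exact h7
          · intro hh
            exact absurd (Finset.mem_filter.1 hh).2 (lt_irrefl _)
        have h8 := Finset.card_insert_le x (M.filter (fun x => σ x ≤ σ p))
        omega
      · omega
    · split_ifs with hc
      · have h3 : 3 ≤ (G.filter (fun y => σ p ≤ σ y)).card := by
          have h4 : G \ below σ G x ⊆ G.filter (fun y => σ p ≤ σ y) := by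
            intro y hy
            obtain ⟨h5, h6⟩ := Finset.mem_sdiff.1 hy
            refine Finset.mem_filter.2 ⟨h5, hc.trans ?_⟩
            by_contra h7
            exact h6 (Finset.mem_filter.2 ⟨h5, not_le.1 h7⟩)
          have h7 := Finset.card_le_card h4
          have h9 : below σ G x ⊆ G := Finset.filter_subset _ _
          rw [Finset.card_sdiff_of_subset h9, hxc, hG] at h7
          exact h7
        have h8 := Finset.card_insert_le x (M.filter (fun x => σ p ≤ σ x))
        omega
      · omega

/-- the medians of groups of five -/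
theorem medians {m : ℕ} (S : Finset (Fin m)) :
    Comp (8 * (S.card / 5)) (fun (σ : Equiv.Perm (Fin m)) (M : Finset (Fin m)) =>
      M ⊆ S ∧ M.card = S.card / 5 ∧ ∀ p : Fin m,
        3 * (M.filter (fun x => σ x ≤ σ p)).card ≤ (S.filter (fun x => σ x ≤ σ p)).card ∧
        3 * (M.filter (fun x => σ p ≤ σ x)).card ≤ (S.filter (fun x => σ p ≤ σ x)).card) := by
  classical
  induction hn : S.card using Nat.strong_induction_on generalizing S with
  | _ n ih =>
    rcases Nat.lt_or_ge n 5 with h5 | h5
    · refine Comp.ret' ∅ (fun σ => ⟨Finset.empty_subset _, ?_, fun p => ⟨?_, ?_⟩⟩) _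
      · rw [Finset.card_empty]; omega
      · simp
      · simp
    · obtain ⟨G, hGS, hG⟩ := Finset.exists_subset_card_eq (show 5 ≤ S.card by omega)
      have hcard : (S \ G).card = n - 5 := by
        rw [Finset.card_sdiff_of_subset hGS, hG, hn]
      have h1 := ih (n - 5) (by omega) (S \ G) hcard
      have h2 : 8 * (n / 5) = 8 + 8 * ((n - 5) / 5) := by omega
      rw [h2]
      refine (med_five G hG).bind' ?_
      intro x _
      refine h1.map' (fun M => insert x M) ?_
      intro σ M hM hx
      obtain ⟨h3, h4, h5⟩ := hM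
      rw [← hcard] at h4
      have h6 := Med_step σ S G M x hGS hG hx.1 hx.2 h3 h4 h5
      rw [hn] at h6
      exact h6

end Pool.Agent.H95.SelS
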