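import Pool.Agent.H78.SelU.Count

set_option autoImplicit false

/-! Two dummy elements: `V n t + 3 ≤ V (n+2) (t+1)`. -/

namespace Pool.Agent.H95.SelS

open Pool.Agent.H78.SelU
open Pool.Agent.H78.SelU.DT

variable {n : ℕ} {β : Type}

/-- number of comparisons made for the permutation `σ` -/
def cost (σ : Equiv.Perm (Fin n)) : DT n β → ℕ
  | ret _ => 0
  | ask x y a b => (if σ x < σ y then cost σ a else cost σ b) + 1

theorem cost_le_depth (σ : Equiv.Perm (Fin n)) (T : DT n β) : cost σ T ≤ T.depth := by
  induction T with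
  | ret b => simp [cost, depth]
  | ask x y a b iha ihb =>
    simp only [cost, depth]
    split_ifs <;> omega

/-- cut a tree at depth `k` -/
def trunc (z : β) : ℕ → DT n β → DT n β
  | _, ret b => ret b
  | 0, ask _ _ _ _ => ret z
  | k + 1, ask x y a b => ask x y (trunc z k a) (trunc z k b)

theorem depth_trunc (z : β) (T : DT n β) (k : ℕ) : (trunc z k T).depth ≤ k := by
  induction T generalizing k with
  | ret b => cases k <;> simp [trunc, depth]
  | ask x y a b iha ihb =>
    cases k with
    | zero => simp [trunc, depth]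
    | succ k =>
      have h1 := iha k
      have h2 := ihb k
      simp only [trunc, depth]
      omega

theorem eval_trunc (z : β) (σ : Equiv.Perm (Fin n)) (T : DT n β) (k : ℕ) (h : cost σ T ≤ k) :
    (trunc z k T).eval σ = T.eval σ := by
  induction T generalizing k with
  | ret b => cases k <;> simp [trunc]
  | ask x y a b iha ihb =>
    cases k with
    | zero => simp [cost] at h
    | succ k =>
      simp only [cost] at h
      simp only [trunc, eval]
      split_ifs with hxy
      · rw [if_pos hxy] at h
        exact iha k (by omega)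
      · rw [if_neg hxy] at h
        exact ihb k (by omega)

theorem tsuff_of_cost (t : Fin n) (k : ℕ) (T : DT n (Fin n)) (hc : ∀ σ, cost σ T ≤ k)
    (hT : ∀ σ : Equiv.Perm (Fin n), σ (T.eval σ) = t) : TSuff n t k :=
  ⟨trunc t k T, depth_trunc t T k, fun σ => by rw [eval_trunc t σ T k (hc σ)]; exact hT σ⟩

theorem cost_map {γ : Type} (σ : Equiv.Perm (Fin n)) (f : β → γ) (T : DT n β) :
    cost σ (T.map f) = cost σ T := by
  induction T with
  | ret b => rfl
  | ask x y a b iha ihb =>
    simp only [DT.map] at iha ihb ⊢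
    simp only [DT.bind, cost, iha, ihb]

open Classical in
/-- number of comparisons with `d` made for the permutation `σ` -/
noncomputable def cnt (d : Fin n) (σ : Equiv.Perm (Fin n)) : DT n β → ℕ
  | ret _ => 0
  | ask x y a b => (if x = d ∨ y = d then 1 else 0) + (if σ x < σ y then cnt d σ a else cnt d σ b)

theorem eval_congr (d : Fin n) (σ τ : Equiv.Perm (Fin n)) (T : DT n β) (h0 : cnt d σ T = 0)
    (h : ∀ x y, x ≠ d → y ≠ d → (σ x < σ y ↔ τ x < τ y)) : T.eval τ = T.eval σ := by
  induction T with
  | ret b => rfl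
  | ask x y a b iha ihb =>
    simp only [cnt] at h0
    have hxy : ¬ (x = d ∨ y = d) := by
      intro hc
      rw [if_pos hc] at h0
      omega
    rw [if_neg hxy] at h0
    push Not at hxy
    have hiff := h x y hxy.1 hxy.2
    simp only [eval]
    by_cases hlt : σ x < σ y
    · rw [if_pos hlt, if_pos (hiff.1 hlt)]
      rw [if_pos hlt] at h0
      exact iha (by omega)
    · rw [if_neg hlt, if_neg (fun hh => hlt (hiff.2 hh))]
      rw [if_neg hlt] at h0
      exact ihb (by omega)

theorem cost_red (d p : Fin (n + 1)) (hp : Extreme p) (z : Fin n) (σ : Equiv.Perm (Fin n))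
    (T : DT (n + 1) (Fin (n + 1))) :
    cost σ (red d p z T) + cnt d (ext d p σ) T = cost (ext d p σ) T := by
  induction T with
  | ret b => rfl
  | ask x y a b iha ihb =>
    unfold red
    by_cases hx : x = d
    · rw [if_pos hx]
      by_cases hy : y = d
      · rw [if_pos hy]
        have hlt : ¬ ext d p σ x < ext d p σ y := by
          rw [hx, hy]
          exact lt_irrefl _
        simp only [cost, cnt]
        rw [if_neg hlt, if_neg hlt, if_pos (Or.inl hx)]
        omega
      · rw [if_neg hy]
        have hne : ext d p σ y ≠ p := by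
          intro h
          exact hy ((ext d p σ).injective (h.trans (ext_self d p σ).symm))
        by_cases hl : lowP p
        · rw [if_pos hl]
          have : ext d p σ x < ext d p σ y := by
            rw [hx, ext_self]
            exact lt_of_le_of_ne (hl _) (Ne.symm hne)
          simp only [cost, cnt]
          rw [if_pos this, if_pos this, if_pos (Or.inl hx)]
          omega
        · rw [if_neg hl]
          have hh : ∀ i : Fin (n + 1), i ≤ p := by
            rcases hp with h | h
            · exact h
            · exact absurd h hl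
          have : ¬ ext d p σ x < ext d p σ y := by
            rw [hx, ext_self]
            exact not_lt.2 (hh _)
          simp only [cost, cnt]
          rw [if_neg this, if_neg this, if_pos (Or.inl hx)]
          omega
    · rw [if_neg hx]
      by_cases hy : y = d
      · rw [if_pos hy]
        have hne : ext d p σ x ≠ p := by
          intro h
          exact hx ((ext d p σ).injective (h.trans (ext_self d p σ).symm))
        by_cases hl : lowP p
        · rw [if_pos hl]
          have : ¬ ext d p σ x < ext d p σ y := by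
            rw [hy, ext_self]
            exact not_lt.2 (hl _)
          simp only [cost, cnt]
          rw [if_neg this, if_neg this, if_pos (Or.inr hy)]
          omega
        · rw [if_neg hl]
          have hh : ∀ i : Fin (n + 1), i ≤ p := by
            rcases hp with h | h
            · exact h
            · exact absurd h hl
          have : ext d p σ x < ext d p σ y := by
            rw [hy, ext_self]
            exact lt_of_le_of_ne (hh _) hne
          simp only [cost, cnt]
          rw [if_pos this, if_pos this, if_pos (Or.inr hy)]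
          omega
      · rw [if_neg hy]
        have ex : ext d p σ x = p.succAbove (σ ((finSuccEquiv' d x).getD z)) := by
          conv_lhs => rw [← getD_spec d z x hx]
          exact ext_succAbove d p σ _
        have ey : ext d p σ y = p.succAbove (σ ((finSuccEquiv' d y).getD z)) := by
          conv_lhs => rw [← getD_spec d z y hy]
          exact ext_succAbove d p σ _
        have hno : ¬ (x = d ∨ y = d) := by
          push Not
          exact ⟨hx, hy⟩
        have hiff : ext d p σ x < ext d p σ y ↔
            σ ((finSuccEquiv' d x).getD z) < σ ((finSuccEquiv' d y).getD z) := by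
          rw [ex, ey, Fin.succAbove_lt_succAbove_iff]
        simp only [cost, cnt, if_neg hno]
        by_cases hlt : ext d p σ x < ext d p σ y
        · rw [if_pos hlt, if_pos hlt, if_pos (hiff.1 hlt)]
          omega
        · rw [if_neg hlt, if_neg hlt, if_neg (fun hh => hlt (hiff.2 hh))]
          omega

/-- the order of the elements other than `d` does not depend on the position of `d` -/
theorem ext_lt_iff (d p p' : Fin (n + 1)) (σ : Equiv.Perm (Fin n)) (x y : Fin (n + 1))
    (hx : x ≠ d) (hy : y ≠ d) : ext d p σ x < ext d p σ y ↔ ext d p' σ x < ext d p' σ y := by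
  obtain ⟨i, rfl⟩ := Fin.exists_succAbove_eq hx
  obtain ⟨j, rfl⟩ := Fin.exists_succAbove_eq hy
  rw [ext_succAbove, ext_succAbove, ext_succAbove, ext_succAbove, Fin.succAbove_lt_succAbove_iff,
    Fin.succAbove_lt_succAbove_iff]

/-- a dummy at the bottom takes part in a comparison -/
theorem one_le_cnt_zero (d : Fin (n + 1)) (t : Fin n) (T : DT (n + 1) (Fin (n + 1)))
    (hT : ∀ σ : Equiv.Perm (Fin (n + 1)), σ (T.eval σ) = t.succ) (σ : Equiv.Perm (Fin n)) :
    1 ≤ cnt d (ext d 0 σ) T := by
  by_contra hc
  have h0 : cnt d (ext d 0 σ) T = 0 := by omega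
  have he := eval_congr d (ext d 0 σ) (ext d (Fin.last n) σ) T h0
    (fun x y hx hy => ext_lt_iff d 0 (Fin.last n) σ x y hx hy)
  have h1 := hT (ext d 0 σ)
  have h2 := hT (ext d (Fin.last n) σ)
  rw [he] at h2
  set o := T.eval (ext d 0 σ) with ho
  have hod : o ≠ d := by
    intro h
    rw [h, ext_self] at h1
    exact absurd h1.symm (Fin.succ_ne_zero t)
  obtain ⟨i, hi⟩ := Fin.exists_succAbove_eq hod
  rw [← hi, ext_succAbove] at h1 h2
  rw [Fin.succAbove_zero] at h1
  rw [Fin.succAbove_last] at h2
  have e1 : (σ i).val + 1 = t.val + 1 := by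
    have := congrArg Fin.val h1
    simpa using this
  have e2 : (σ i).val = t.val + 1 := by
    have := congrArg Fin.val h2
    simpa using this
  omega

/-- a dummy at the top which has beaten a dummy at the bottom takes part in one more comparison -/
theorem one_le_cnt_top (u v : Fin (n + 2)) (y : Fin (n + 1)) (hy : u.succAbove y = v)
    (t : Fin n) (a b : DT (n + 2) (Fin (n + 2)))
    (hT : ∀ σ : Equiv.Perm (Fin (n + 2)), σ ((ask u v a b).eval σ) = (Fin.last (n + 1)).succAbove t.succ)
    (σ : Equiv.Perm (Fin n)) :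
    2 ≤ cnt u (ext u (Fin.last (n + 1)) (ext y 0 σ)) (ask u v a b) := by
  set σ₁ := ext y 0 σ with hσ₁
  set σ₂ := ext u (Fin.last (n + 1)) σ₁ with hσ₂
  have huv : v ≠ u := by
    rw [← hy]
    exact Fin.succAbove_ne u y
  have hσu : σ₂ u = Fin.last (n + 1) := ext_self _ _ _
  have hn : ¬ σ₂ u < σ₂ v := by
    rw [hσu]
    exact not_lt.2 (Fin.le_last _)
  have hc : cnt u σ₂ (ask u v a b) = 1 + cnt u σ₂ b := by
    have h1 : cnt u σ₂ (ask u v a b) = (if u = u ∨ v = u then 1 else 0) +
      (if σ₂ u < σ₂ v then cnt u σ₂ a else cnt u σ₂ b) := rfl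
    rw [h1, if_neg hn, if_pos (Or.inl rfl)]
  rw [hc]
  by_contra hcon
  have h0 : cnt u σ₂ b = 0 := by omega
  set τ := ext u 1 σ₁ with hτ
  have he : b.eval τ = b.eval σ₂ := eval_congr u σ₂ τ b h0
    (fun x z hx hz => ext_lt_iff u (Fin.last (n + 1)) 1 σ₁ x z hx hz)
  have hτu : τ u = 1 := ext_self _ _ _
  have hσ₁y : σ₁ y = 0 := ext_self _ _ _
  have hτv : τ v = 0 := by
    rw [← hy, hτ, ext_succAbove, hσ₁y]
    exact Fin.succAbove_ne_zero_zero (by simp)
  have hn' : ¬ τ u < τ v := by
    rw [hτu, hτv]
    exact not_lt.2 (Fin.zero_le _)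
  have h1 := hT σ₂
  have h2 := hT τ
  have e1 : (ask u v a b).eval σ₂ = b.eval σ₂ := by
    simp only [eval]
    rw [if_neg hn]
  have e2 : (ask u v a b).eval τ = b.eval σ₂ := by
    simp only [eval]
    rw [if_neg hn', he]
  rw [e1] at h1
  rw [e2] at h2
  set o := b.eval σ₂ with ho
  have hou : o ≠ u := by
    intro h
    rw [h, hσu] at h1
    exact Fin.succAbove_ne _ _ h1.symm
  obtain ⟨i, hi⟩ := Fin.exists_succAbove_eq hou
  rw [← hi, hσ₂, ext_succAbove] at h1
  have h3 : σ₁ i = t.succ := Fin.succAbove_right_injective h1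
  rw [← hi, hτ, ext_succAbove, h3] at h2
  have h4 := congrArg Fin.val h2
  rw [Fin.succAbove_last] at h4
  rw [Fin.succAbove_of_le_castSucc _ _ (by
    rw [Fin.le_def]
    simp)] at h4
  simp at h4

theorem exists_ask (s : Fin (n + 2)) (hs : ∀ b : Fin (n + 2), ∃ σ : Equiv.Perm (Fin (n + 2)), σ b ≠ s)
    (T : DT (n + 2) (Fin (n + 2))) (hT : ∀ σ : Equiv.Perm (Fin (n + 2)), σ (T.eval σ) = s) :
    ∃ (u v : Fin (n + 2)) (a b : DT (n + 2) (Fin (n + 2))), u ≠ v ∧
      (ask u v a b).depth ≤ T.depth ∧
      ∀ σ : Equiv.Perm (Fin (n + 2)), σ ((ask u v a b).eval σ) = s := by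
  induction T with
  | ret b =>
    obtain ⟨σ, hσ⟩ := hs b
    exact absurd (hT σ) hσ
  | ask x y a b iha ihb =>
    by_cases hxy : x = y
    · have hb : ∀ σ : Equiv.Perm (Fin (n + 2)), σ (b.eval σ) = s := by
        intro σ
        have := hT σ
        simp only [eval, hxy, lt_irrefl, if_false] at this
        exact this
      obtain ⟨u, v, a', b', h1, h2, h3⟩ := ihb hb
      refine ⟨u, v, a', b', h1, le_trans h2 ?_, h3⟩
      simp only [depth]
      omega
    · exact ⟨x, y, a, b, hxy, le_refl _, hT⟩

theorem tsuff_pair (t : Fin n) (k : ℕ)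
    (h : TSuff (n + 2) ((Fin.last (n + 1)).succAbove t.succ) k) : 3 ≤ k ∧ TSuff n t (k - 3) := by
  obtain ⟨T0, hT0, hs0⟩ := h
  obtain ⟨u, v, a, b, huv, hd, hs⟩ := exists_ask _ (fun b => by
    by_cases hb : b = (Fin.last (n + 1)).succAbove t.succ
    · refine ⟨Equiv.swap b (Fin.last (n + 1)), ?_⟩
      rw [Equiv.swap_apply_left]
      exact (Fin.succAbove_ne _ _).symm
    · exact ⟨1, hb⟩) T0 hs0
  set T : DT (n + 2) (Fin (n + 2)) := ask u v a b with hTdef
  obtain ⟨y, hy⟩ := Fin.exists_succAbove_eq (Ne.symm huv)
  -- first dummy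
  set z : Fin (n + 1) := t.succ with hz
  set T1 : DT (n + 1) (Fin (n + 1)) :=
    (red u (Fin.last (n + 1)) z T).map (fun o => (finSuccEquiv' u o).getD z) with hT1
  have hs1 : ∀ σ : Equiv.Perm (Fin (n + 1)), σ (T1.eval σ) = t.succ := by
    intro σ
    rw [hT1, eval_map, eval_red u _ extreme_last]
    set o := T.eval (ext u (Fin.last (n + 1)) σ) with ho
    have hso := hs (ext u (Fin.last (n + 1)) σ)
    rw [← ho] at hso
    have hod : o ≠ u := by
      intro h
      rw [h, ext_self] at hso
      exact Fin.succAbove_ne _ _ hso.symm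
    have := getD_spec u z o hod
    rw [← this, ext_succAbove] at hso
    exact Fin.succAbove_right_injective hso
  set T2 : DT n (Fin n) := (red y 0 t T1).map (fun o => (finSuccEquiv' y o).getD t) with hT2
  have hs2 : ∀ σ : Equiv.Perm (Fin n), σ (T2.eval σ) = t := by
    intro σ
    rw [hT2, eval_map, eval_red y _ extreme_zero]
    set o := T1.eval (ext y 0 σ) with ho
    have hso := hs1 (ext y 0 σ)
    rw [← ho] at hso
    have hod : o ≠ y := by
      intro h
      rw [h, ext_self] at hso
      exact (Fin.succ_ne_zero t) hso.symm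
    have := getD_spec y t o hod
    rw [← this, ext_succAbove, Fin.succAbove_zero] at hso
    exact Fin.succ_injective _ hso
  have key : ∀ σ : Equiv.Perm (Fin n), cost σ T2 + 3 ≤ k := by
    intro σ
    have c1 := cost_red y 0 extreme_zero t σ T1
    have c2 := cost_red u (Fin.last (n + 1)) extreme_last z (ext y 0 σ) T
    have c3 : cost (ext y 0 σ) T1 = cost (ext y 0 σ) (red u (Fin.last (n + 1)) z T) := cost_map _ _ _
    have c4 : cost σ T2 = cost σ (red y 0 t T1) := cost_map _ _ _
    have c5 := one_le_cnt_zero y t T1 hs1 σ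
    have c6 := one_le_cnt_top u v y hy t a b hs σ
    have c7 := cost_le_depth (ext u (Fin.last (n + 1)) (ext y 0 σ)) T
    rw [← hTdef] at c6
    omega
  refine ⟨by have := key 1; omega, tsuff_of_cost t (k - 3) T2 (fun σ => by have := key σ; omega) hs2⟩

theorem V_pair (t : Fin n) : V n t + 3 ≤ V (n + 2) ((Fin.last (n + 1)).succAbove t.succ) := by
  have h0 := V_spec (n := n + 2) ((Fin.last (n + 1)).succAbove t.succ)
  obtain ⟨h1, h2⟩ := tsuff_pair t (V (n + 2) ((Fin.last (n + 1)).succAbove t.succ)) h0
  have := V_le h2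
  omega

theorem W_pair {t n : ℕ} (h : t < n) : W t n + 3 ≤ W (t + 1) (n + 2) := by
  rw [W_eq h, W_eq (show t + 1 < n + 2 by omega)]
  have := V_pair (⟨t, h⟩ : Fin n)
  rw [Fin.succAbove_last] at this
  exact this

theorem W_pairs {t n : ℕ} (h : t < n) (s : ℕ) : W t n + 3 * s ≤ W (t + s) (n + 2 * s) := by
  induction s with
  | zero => simp
  | succ s ih =>
    have := W_pair (t := t + s) (n := n + 2 * s) (by omega)
    have e1 : t + (s + 1) = t + s + 1 := by ring
    have e2 : n + 2 * (s + 1) = n + 2 * s + 2 := by ring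
    rw [e1, e2]
    omega

theorem W_rows {t n : ℕ} (h : t < n) (r : ℕ) : W t n + r ≤ W t (n + r) := by
  induction r with
  | zero => simp
  | succ r ih =>
    have := W_row (t := t) (n := n + r) (by omega)
    have e : n + (r + 1) = n + r + 1 := rfl
    rw [e]
    omega

theorem W_diags {t n : ℕ} (h : t < n) (r : ℕ) : W t n + r ≤ W (t + r) (n + r) := by
  induction r with
  | zero => simp
  | succ r ih =>
    have := W_diag (t := t + r) (n := n + r) (by omega)
    have e : n + (r + 1) = n + r + 1 := rfl
    have e' : t + (r + 1) = t + r + 1 := rfl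
    rw [e, e']
    omega

end Pool.Agent.H95.SelS
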