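import Pool.Agent.H95.SelS.Cert

set_option autoImplicit false

/-! Selection from a subset of size `n` costs at most `V n t`. -/

namespace Pool.Agent.H95.SelS

open Pool.Agent.H78.SelU
open Pool.Agent.H78.SelU.DT

/-- ask `w x, w y` instead of `x, y` -/
def Relabel_tree {n m : ℕ} {β : Type} (w : Fin n → Fin m) : DT n β → DT m β
  | DT.ret b => DT.ret b
  | DT.ask x y a b => DT.ask (w x) (w y) (Relabel_tree w a) (Relabel_tree w b)

theorem Relabel_depth {n m : ℕ} {β : Type} (w : Fin n → Fin m) (T : DT n β) :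
    (Relabel_tree w T).depth = T.depth := by
  induction T with
  | ret b => rfl
  | ask x y a b iha ihb => simp only [Relabel_tree, depth, iha, ihb]

theorem Relabel_eval {n m : ℕ} {β : Type} (w : Fin n → Fin m) (σ : Equiv.Perm (Fin m))
    (τ : Equiv.Perm (Fin n)) (h : ∀ x y, τ x < τ y ↔ σ (w x) < σ (w y)) (T : DT n β) :
    (Relabel_tree w T).eval σ = T.eval τ := by
  induction T with
  | ret b => rfl
  | ask x y a b iha ihb =>
    simp only [Relabel_tree, eval, iha, ihb, h x y]

theorem Relabel_std {n m : ℕ} (w : Fin n → Fin m) (hw : Function.Injective w)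
    (σ : Equiv.Perm (Fin m)) :
    ∃ τ : Equiv.Perm (Fin n), ∀ x y, τ x < τ y ↔ σ (w x) < σ (w y) := by
  classical
  have hinj : Function.Injective (fun x => σ (w x)) := σ.injective.comp hw
  have hc : (Finset.univ.image (fun x : Fin n => σ (w x))).card = n := by
    rw [Finset.card_image_of_injective _ hinj, Finset.card_univ, Fintype.card_fin]
  have hm : ∀ x : Fin n, σ (w x) ∈ Finset.univ.image (fun x : Fin n => σ (w x)) :=
    fun x => Finset.mem_image_of_mem _ (Finset.mem_univ x)
  let e := (Finset.univ.image (fun x : Fin n => σ (w x))).orderIsoOfFin hc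
  let f : Fin n → Fin n := fun x => e.symm ⟨σ (w x), hm x⟩
  have hf : Function.Injective f := by
    intro x y hxy
    have h1 := e.symm.injective hxy
    exact hinj (Subtype.ext_iff.1 h1)
  refine ⟨Equiv.ofBijective f (Finite.injective_iff_bijective.1 hf), fun x y => ?_⟩
  simp only [Equiv.ofBijective_apply]
  change e.symm _ < e.symm _ ↔ _
  rw [e.symm.lt_iff_lt]
  exact Iff.rfl

theorem Relabel_card {n : ℕ} (τ : Equiv.Perm (Fin n)) (t : Fin n) :
    (Finset.univ.filter (fun y => τ y < t)).card = t.val := by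
  have h1 : (Finset.univ.filter (fun y => τ y < t)) = (Finset.Iio t).map τ.symm.toEmbedding := by
    ext y
    simp only [Finset.mem_filter, Finset.mem_univ, true_and, Finset.mem_map_equiv,
      Equiv.symm_symm, Finset.mem_Iio]
  rw [h1, Finset.card_map, Fin.card_Iio]

theorem sel_of_tsuff {n : ℕ} (t : Fin n) (k : ℕ) (h : TSuff n t k) {m : ℕ} (S : Finset (Fin m))
    (hS : S.card = n) :
    Comp k (fun (σ : Equiv.Perm (Fin m)) (x : Fin m × Finset (Fin m)) =>
      x.1 ∈ S ∧ x.2 = below σ S x.1 ∧ x.2.card = t.val) := by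
  classical
  obtain ⟨T, hT, hs⟩ := cert t k h
  let w : Fin n ↪o Fin m := S.orderEmbOfFin hS
  refine ⟨(Relabel_tree w T).map (fun x => (w x.1, x.2.map w.toEmbedding)), ?_, fun σ => ?_⟩
  · rw [depth_map, Relabel_depth]
    exact hT
  · obtain ⟨τ, hτ⟩ := Relabel_std w w.injective σ
    obtain ⟨h1, h2⟩ := hs τ
    rw [eval_map, Relabel_eval w σ τ hτ]
    refine ⟨S.orderEmbOfFin_mem hS _, ?_, ?_⟩
    · ext y
      simp only [below, Finset.mem_map, Finset.mem_filter, h2, Finset.mem_univ, true_and]
      constructor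
      · rintro ⟨i, hi, rfl⟩
        refine ⟨S.orderEmbOfFin_mem hS i, ?_⟩
        rw [← h1] at hi
        exact (hτ _ _).1 hi
      · rintro ⟨hy, hlt⟩
        have hr : y ∈ Set.range (S.orderEmbOfFin hS) := by
          rw [Finset.range_orderEmbOfFin]
          exact hy
        obtain ⟨i, hi⟩ := hr
        refine ⟨i, ?_, hi⟩
        rw [← h1]
        refine (hτ _ _).2 ?_
        have hi' : w i = y := hi
        rw [hi']
        exact hlt
    · rw [Finset.card_map, h2, Relabel_card]

end Pool.Agent.H95.SelS
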