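import Pool.Agent.H95.SelS.Pair
import Pool.Agent.H95.SelS.Half
import Pool.Agent.H95.SelS.Cover

set_option autoImplicit false

/-! One row: failures force steep pieces of the row. -/

namespace Pool.Agent.H95.SelS

open Pool.Agent.H78.SelU

theorem W_lower {c n : ℕ} (h : c < n) : n - 1 ≤ W c n := by
  have := E_lower c n (by omega)
  omega

/-- the excess of the row `c` -/
noncomputable def ex (c n : ℕ) : ℕ := if c < n then W c n - (n - 1) else 0

theorem ex_eq {c n : ℕ} (h : c < n) : ex c n + (n - 1) = W c n := by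
  have := W_lower h
  unfold ex
  rw [if_pos h]
  omega

theorem ex_mono (c : ℕ) : Monotone (ex c) := by
  apply monotone_nat_of_le_succ
  intro n
  by_cases h : c < n
  · have h1 := ex_eq h
    have h2 := ex_eq (show c < n + 1 by omega)
    have h3 := W_row h
    omega
  · have : ex c n = 0 := by
      unfold ex
      rw [if_neg h]
    omega

theorem ex_zero (n : ℕ) : ex 0 n = 0 := by
  by_cases h : 0 < n
  · have h1 := ex_eq h
    have h2 := W_upper h
    omega
  · unfold ex
    rw [if_neg h]

theorem ex_double {c n : ℕ} (h : c < n) : ex c (2 * n) ≤ ex c n + 120 * c := by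
  rcases Nat.eq_zero_or_pos c with hc | hc
  · subst hc
    rw [ex_zero]
    omega
  · have h1 := ex_eq h
    have h2 := ex_eq (show c < 2 * n by omega)
    have h3 := W_double h
    omega

theorem ex_sixteen {c n : ℕ} (h : c < n) : ex c (16 * n) ≤ ex c n + 480 * c := by
  have h1 := ex_double h
  have h2 := ex_double (show c < 2 * n by omega)
  have h3 := ex_double (show c < 2 * (2 * n) by omega)
  have h4 := ex_double (show c < 2 * (2 * (2 * n)) by omega)
  have e : 16 * n = 2 * (2 * (2 * (2 * n))) := by ring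
  rw [e]
  omega

/-- a failure makes the row `c` steep -/
theorem steep {a b c n : ℕ} (hac : a ≤ c) (hcb : c ≤ b) (hn : 2 * b < n + c) (hbn : b < n)
    (hf : W b n < W a n) :
    ex c (n - 2 * (b - c)) + (b - c) + 1 ≤ ex c (n + (c - a)) := by
  have h1 := W_pairs (t := c) (n := n - 2 * (b - c)) (by omega) (b - c)
  have h2 := W_diags (t := a) (n := n) (by omega) (c - a)
  have e1 : c + (b - c) = b := by omega
  have e2 : n - 2 * (b - c) + 2 * (b - c) = n := by omega
  have e3 : a + (c - a) = c := by omega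
  rw [e1, e2] at h1
  rw [e3] at h2
  have h3 := ex_eq (show c < n - 2 * (b - c) by omega)
  have h4 := ex_eq (show c < n + (c - a) by omega)
  omega

open Classical in
/-- right ends of the steep pieces of the row `c` at scale `u` -/
noncomputable def ends (c u N : ℕ) : Finset ℕ := (Finset.range (4 * N + 1)).filter (fun b =>
  ∃ a, N / 2 ≤ a ∧ a < b ∧ u ≤ b - a ∧ b - a + 3 * ex c a ≤ 3 * ex c b)

theorem mem_ends {c u N b : ℕ} : b ∈ ends c u N ↔ b < 4 * N + 1 ∧
    ∃ a, N / 2 ≤ a ∧ a < b ∧ u ≤ b - a ∧ b - a + 3 * ex c a ≤ 3 * ex c b := by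
  classical
  unfold ends
  rw [Finset.mem_filter, Finset.mem_range]

/-- the numbers covered by the steep pieces -/
noncomputable def cov (c u N : ℕ) : Finset ℕ := (ends c u N).biUnion (fun b => Finset.Ioc (b - u) b)

theorem cov_card {c u N : ℕ} (h : 2 * c + 1 < N) : (cov c u N).card ≤ 2880 * c := by
  have h1 := cover (ex c) (ex_mono c) u (N / 2) (4 * N) (ends c u N)
    (fun b hb => by have := (mem_ends.1 hb).1; omega) (fun b hb => (mem_ends.1 hb).2)
  have h2 : max (N / 2) (4 * N) ≤ 16 * (N / 2) := by omega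
  have h3 := ex_mono c h2
  have h4 := ex_sixteen (show c < N / 2 by omega)
  unfold cov
  omega

theorem mem_cov {a b c u n N : ℕ} (hac : a ≤ c) (hq : c - a < u) (hr : u ≤ b - c) (hcb : c < b)
    (hN : N < n) (hn : n ≤ 2 * N) (hb : 4 * b < N) (hf : W b n < W a n) : n ∈ cov c u N := by
  have h1 := steep hac hcb.le (by omega) (by omega) hf
  unfold cov
  rw [Finset.mem_biUnion]
  refine ⟨n + (c - a), ?_, ?_⟩
  · rw [mem_ends]
    refine ⟨by omega, n - 2 * (b - c), by omega, by omega, by omega, by omega⟩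
  · rw [Finset.mem_Ioc]
    omega

/-- choice of the row -/
theorem exists_row {a b : ℕ} (hab : a < b) : ∃ j, a ≤ j * 2 ^ (Nat.log 2 (b - a) - 1) ∧
    j * 2 ^ (Nat.log 2 (b - a) - 1) - a < 2 ^ (Nat.log 2 (b - a) - 1) ∧
    2 ^ (Nat.log 2 (b - a) - 1) ≤ b - j * 2 ^ (Nat.log 2 (b - a) - 1) ∧
    j * 2 ^ (Nat.log 2 (b - a) - 1) < b := by
  set l := Nat.log 2 (b - a) with hl
  set u := 2 ^ (l - 1) with hu
  have hu0 : 0 < u := by positivity
  have hlow : 2 ^ l ≤ b - a := Nat.pow_log_le_self 2 (by omega)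
  refine ⟨(a + (u - 1)) / u, ?_⟩
  have h1 : (a + (u - 1)) / u * u + (a + (u - 1)) % u = a + (u - 1) := by
    rw [mul_comm]
    exact Nat.div_add_mod _ _
  have h2 : (a + (u - 1)) % u < u := Nat.mod_lt _ hu0
  rcases Nat.eq_zero_or_pos l with h0 | h0
  · have hu1 : u = 1 := by rw [hu, h0]; rfl
    rw [hu1] at h1 h2 ⊢
    omega
  · have : 2 ^ l = 2 * u := by
      rw [hu, ← pow_succ']
      congr 1
      omega
    omega

end Pool.Agent.H95.SelS
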