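import Pool.Agent.H95.SelS.Rows

set_option autoImplicit false

/-! The scale theorem: at most `23040 k^2 / s` numbers in `(N, 2N]` have a failure at distance at
least `s` below `k`. -/

namespace Pool.Agent.H95.SelS

open Pool.Agent.H78.SelU

open Classical in
/-- the numbers in `(N, 2N]` with a failure at distance at least `s` below `k` -/
noncomputable def Bad (N k s : ℕ) : Finset ℕ := (Finset.Ioc N (2 * N)).filter (fun n =>
  ∃ a b, a < b ∧ b < k ∧ b < n ∧ s ≤ b - a ∧ W b n < W a n)

theorem mem_Bad {N k s n : ℕ} : n ∈ Bad N k s ↔ (N < n ∧ n ≤ 2 * N) ∧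
    ∃ a b, a < b ∧ b < k ∧ b < n ∧ s ≤ b - a ∧ W b n < W a n := by
  classical
  unfold Bad
  rw [Finset.mem_filter, Finset.mem_Ioc]

theorem sum_half_le (e0 L : ℕ) : ∑ e ∈ Finset.Ico e0 L, ((1 : ℝ) / 2) ^ e ≤ 2 * (1 / 2) ^ e0 := by
  rcases Nat.lt_or_ge L e0 with h | h
  · rw [Finset.Ico_eq_empty (by omega)]
    simp
  · have : ∑ e ∈ Finset.Ico e0 L, ((1 : ℝ) / 2) ^ e = 2 * (1 / 2) ^ e0 - 2 * (1 / 2) ^ L := by
      induction L, h using Nat.le_induction with
      | base => simp
      | succ L hL ih =>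
        rw [Finset.sum_Ico_succ_top hL, ih, pow_succ]
        ring
    rw [this]
    have : (0 : ℝ) ≤ 2 * (1 / 2) ^ L := by positivity
    linarith

theorem half_pow_le (s : ℕ) (hs : 1 ≤ s) : ((1 : ℝ) / 2) ^ (Nat.log 2 s - 1) ≤ 4 / s := by
  have hs0 : (0 : ℝ) < s := by exact_mod_cast hs
  have h1 : s < 2 ^ (Nat.log 2 s + 1) := Nat.lt_pow_succ_log_self (by norm_num) s
  rw [le_div_iff₀ hs0]
  have h2 : (s : ℝ) ≤ 4 * 2 ^ (Nat.log 2 s - 1) := by
    have : s ≤ 4 * 2 ^ (Nat.log 2 s - 1) := by
      refine h1.le.trans ?_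
      have e : (4 : ℕ) = 2 ^ 2 := rfl
      rw [e, ← pow_add]
      exact Nat.pow_le_pow_right (by norm_num) (by omega)
    exact_mod_cast this
  calc ((1 : ℝ) / 2) ^ (Nat.log 2 s - 1) * s
      ≤ ((1 : ℝ) / 2) ^ (Nat.log 2 s - 1) * (4 * 2 ^ (Nat.log 2 s - 1)) := by gcongr
    _ = 4 * (((1 : ℝ) / 2) * 2) ^ (Nat.log 2 s - 1) := by rw [mul_pow]; ring
    _ = 4 := by norm_num

theorem bad_subset {N k s : ℕ} (h : 4 * k ≤ N) (hs : 1 ≤ s) : Bad N k s ⊆
    (Finset.Ico (Nat.log 2 s - 1) (k + 1)).biUnion (fun e =>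
      (Finset.range (k / 2 ^ e + 1)).biUnion (fun j => cov (j * 2 ^ e) (2 ^ e) N)) := by
  intro n hn
  obtain ⟨⟨hN, hn2⟩, a, b, hab, hbk, hbn, hsb, hf⟩ := mem_Bad.1 hn
  obtain ⟨j, h1, h2, h3, h4⟩ := exists_row hab
  set e := Nat.log 2 (b - a) - 1 with he
  have hpos : 0 < 2 ^ e := by positivity
  rw [Finset.mem_biUnion]
  refine ⟨e, ?_, ?_⟩
  · rw [Finset.mem_Ico]
    constructor
    · have := Nat.log_mono_right (b := 2) hsb
      omega
    · have := Nat.log_lt_self 2 (show b - a ≠ 0 by omega)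
      omega
  · rw [Finset.mem_biUnion]
    refine ⟨j, ?_, mem_cov h1 h2 h3 h4 hN hn2 (by omega) hf⟩
    rw [Finset.mem_range, Nat.lt_succ_iff]
    rw [Nat.le_div_iff_mul_le hpos]
    omega

theorem bad_card {N k s : ℕ} (hs : 1 ≤ s) : (Bad N k s).card * s ≤ 23040 * k ^ 2 := by
  rcases Nat.lt_or_ge N (4 * k) with hN | hN
  · rcases (Bad N k s).eq_empty_or_nonempty with h0 | ⟨n, hn⟩
    · rw [h0]
      simp
    · obtain ⟨-, a, b, hab, hbk, -, hsb, -⟩ := mem_Bad.1 hn
      have h1 : (Bad N k s).card ≤ 4 * k := by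
        classical
        unfold Bad
        refine (Finset.card_filter_le _ _).trans ?_
        rw [Nat.card_Ioc]
        omega
      have h2 : s ≤ k := by omega
      calc (Bad N k s).card * s ≤ 4 * k * k := Nat.mul_le_mul h1 h2
        _ ≤ 23040 * k ^ 2 := by nlinarith [Nat.zero_le (k * k)]
  · rcases Nat.eq_zero_or_pos k with hk0 | hk0
    · have : Bad N k s = ∅ := by
        rw [Finset.eq_empty_iff_forall_notMem]
        intro n hn
        obtain ⟨-, a, b, hab, hbk, -, hsb, -⟩ := mem_Bad.1 hn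
        omega
      rw [this]
      simp
    have hs0 : (0 : ℝ) < s := by exact_mod_cast hs
    have hrow : ∀ e, (((Finset.range (k / 2 ^ e + 1)).biUnion
        (fun j => cov (j * 2 ^ e) (2 ^ e) N)).card : ℝ) ≤ 2880 * (k : ℝ) ^ 2 * (1 / 2) ^ e := by
      intro e
      have hpos : 0 < 2 ^ e := by positivity
      have h1 : ((Finset.range (k / 2 ^ e + 1)).biUnion
          (fun j => cov (j * 2 ^ e) (2 ^ e) N)).card ≤ (k / 2 ^ e) * (2880 * k) := by
        refine Finset.card_biUnion_le.trans ?_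
        rw [Finset.sum_range_succ']
        have h0 : (cov (0 * 2 ^ e) (2 ^ e) N).card ≤ 2880 * (0 * 2 ^ e) := cov_card (by omega)
        have hj : ∀ j ∈ Finset.range (k / 2 ^ e),
            (cov ((j + 1) * 2 ^ e) (2 ^ e) N).card ≤ 2880 * k := by
          intro j hj
          rw [Finset.mem_range] at hj
          have hle : (j + 1) * 2 ^ e ≤ k := by
            rw [← Nat.le_div_iff_mul_le hpos]
            omega
          have := cov_card (c := (j + 1) * 2 ^ e) (u := 2 ^ e) (N := N) (by omega)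
          refine this.trans (Nat.mul_le_mul_left _ hle)
        have := Finset.sum_le_sum hj
        rw [Finset.sum_const, Finset.card_range, smul_eq_mul] at this
        omega
      have h2 : ((k / 2 ^ e : ℕ) : ℝ) ≤ (k : ℝ) * (1 / 2) ^ e := by
        refine Nat.cast_div_le.trans ?_
        push_cast
        rw [div_eq_mul_inv, one_div, inv_pow]
      calc (((Finset.range (k / 2 ^ e + 1)).biUnion
          (fun j => cov (j * 2 ^ e) (2 ^ e) N)).card : ℝ) ≤ ((k / 2 ^ e * (2880 * k) : ℕ) : ℝ) := by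
            exact_mod_cast h1
        _ = ((k / 2 ^ e : ℕ) : ℝ) * (2880 * k) := by rw [Nat.cast_mul]; push_cast; ring
        _ ≤ (k : ℝ) * (1 / 2) ^ e * (2880 * k) := by gcongr
        _ = 2880 * (k : ℝ) ^ 2 * (1 / 2) ^ e := by ring
    have h1 : ((Bad N k s).card : ℝ) ≤ ∑ e ∈ Finset.Ico (Nat.log 2 s - 1) (k + 1),
        2880 * (k : ℝ) ^ 2 * (1 / 2) ^ e := by
      have h2 := (Finset.card_le_card (bad_subset hN hs)).trans Finset.card_biUnion_le
      have h3 : ((Bad N k s).card : ℝ) ≤ ∑ e ∈ Finset.Ico (Nat.log 2 s - 1) (k + 1),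
          (((Finset.range (k / 2 ^ e + 1)).biUnion
            (fun j => cov (j * 2 ^ e) (2 ^ e) N)).card : ℝ) := by
        exact_mod_cast h2
      exact h3.trans (Finset.sum_le_sum (fun e _ => hrow e))
    rw [← Finset.mul_sum] at h1
    have h2 := sum_half_le (Nat.log 2 s - 1) (k + 1)
    have h3 := half_pow_le s hs
    have h4 : ((Bad N k s).card : ℝ) ≤ 23040 * (k : ℝ) ^ 2 / s := by
      calc ((Bad N k s).card : ℝ) ≤ 2880 * (k : ℝ) ^ 2 *
            ∑ e ∈ Finset.Ico (Nat.log 2 s - 1) (k + 1), ((1 : ℝ) / 2) ^ e := h1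
        _ ≤ 2880 * (k : ℝ) ^ 2 * (2 * (4 / s)) := by
            gcongr
            linarith
        _ = 23040 * (k : ℝ) ^ 2 / s := by ring
    rw [le_div_iff₀ hs0] at h4
    exact_mod_cast h4

/-- one row: adjacent failures in `(N, 2N]` -/
theorem row_card (t N : ℕ) :
    ((Finset.Ioc N (2 * N)).filter (fun n => t + 1 < n ∧ W (t + 1) n < W t n)).card ≤ 120 * t := by
  rcases Nat.lt_or_ge t N with h | h
  · have key : ∀ M, N ≤ M → ex t N +
        ((Finset.Ioc N M).filter (fun n => t + 1 < n ∧ W (t + 1) n < W t n)).card ≤ ex t M := by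
      intro M hM
      induction M, hM using Nat.le_induction with
      | base => simp
      | succ M hM ih =>
        have hs : (Finset.Ioc N (M + 1)).filter (fun n => t + 1 < n ∧ W (t + 1) n < W t n) ⊆
            insert (M + 1) ((Finset.Ioc N M).filter (fun n => t + 1 < n ∧ W (t + 1) n < W t n)) := by
          intro n hn
          rw [Finset.mem_filter, Finset.mem_Ioc] at hn
          rw [Finset.mem_insert, Finset.mem_filter, Finset.mem_Ioc]
          rcases Nat.lt_or_ge M n with h1 | h1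
          · left; omega
          · right; exact ⟨⟨hn.1.1, h1⟩, hn.2⟩
        have hm := ex_mono t (show M ≤ M + 1 by omega)
        by_cases hmem : t + 1 < M + 1 ∧ W (t + 1) (M + 1) < W t (M + 1)
        · have hc := (Finset.card_le_card hs).trans (Finset.card_insert_le _ _)
          have h1 := W_diag (show t < M by omega)
          have h2 := ex_eq (show t < M by omega)
          have h3 := ex_eq (show t < M + 1 by omega)
          omega
        · have hs' : (Finset.Ioc N (M + 1)).filter (fun n => t + 1 < n ∧ W (t + 1) n < W t n) ⊆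
              (Finset.Ioc N M).filter (fun n => t + 1 < n ∧ W (t + 1) n < W t n) := by
            intro n hn
            rcases Finset.mem_insert.1 (hs hn) with h1 | h1
            · subst h1
              exact absurd (Finset.mem_filter.1 hn).2 hmem
            · exact h1
          have hc := Finset.card_le_card hs'
          omega
    have h1 := key (2 * N) (by omega)
    have h2 := ex_double h
    omega
  · refine (Finset.card_filter_le _ _).trans ?_
    rw [Nat.card_Ioc]
    omega

end Pool.Agent.H95.SelS
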