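import Pool.Agent.H78.SelU.Count

set_option autoImplicit false

/-! Selection from a subset; a small calculus of comparison trees. -/

namespace Pool.Agent.H95.SelS

open Pool.Agent.H78.SelU
open Pool.Agent.H78.SelU.DT

variable {m : ℕ} {β γ : Type}

/-- some tree of depth at most `d` computes a value satisfying `Q` -/
def Comp (d : ℕ) (Q : Equiv.Perm (Fin m) → β → Prop) : Prop :=
  ∃ U : DT m β, U.depth ≤ d ∧ ∀ σ, Q σ (U.eval σ)

/-- the elements of `S` before `x` -/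
def below (σ : Equiv.Perm (Fin m)) (S : Finset (Fin m)) (x : Fin m) : Finset (Fin m) :=
  S.filter (fun y => σ y < σ x)

theorem Comp.mono {d e : ℕ} {P Q : Equiv.Perm (Fin m) → β → Prop} (h : Comp d P) (hde : d ≤ e)
    (hPQ : ∀ σ b, P σ b → Q σ b) : Comp e Q := by
  obtain ⟨U, hU, hs⟩ := h
  exact ⟨U, hU.trans hde, fun σ => hPQ σ _ (hs σ)⟩

theorem Comp.ret' {Q : Equiv.Perm (Fin m) → β → Prop} (b : β) (h : ∀ σ, Q σ b) (d : ℕ) :
    Comp d Q := ⟨DT.ret b, by simp [depth], h⟩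

theorem Comp.ask' {d : ℕ} {Q : Equiv.Perm (Fin m) → β → Prop} (x y : Fin m)
    (h1 : Comp d (fun σ b => σ x < σ y → Q σ b)) (h2 : Comp d (fun σ b => ¬ σ x < σ y → Q σ b)) :
    Comp (d + 1) Q := by
  obtain ⟨U, hU, hs⟩ := h1
  obtain ⟨V, hV, ht⟩ := h2
  refine ⟨DT.ask x y U V, by simp only [depth]; omega, fun σ => ?_⟩
  simp only [eval]
  split_ifs with h
  · exact hs σ h
  · exact ht σ h

/-- first compute `b` with `P`, then go on -/
theorem Comp.bind' {d e : ℕ} {P : Equiv.Perm (Fin m) → β → Prop}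
    {Q : Equiv.Perm (Fin m) → γ → Prop} (h1 : Comp d P)
    (h2 : ∀ b, (∃ σ, P σ b) → Comp e (fun σ c => P σ b → Q σ c)) : Comp (d + e) Q := by
  classical
  obtain ⟨T, hT, hs⟩ := h1
  have key : ∀ b, ∃ U : DT m γ, U.depth ≤ e ∧ ((∃ σ, P σ b) → ∀ σ, P σ b → Q σ (U.eval σ)) := by
    intro b
    by_cases hb : ∃ σ, P σ b
    · obtain ⟨U, hU, hq⟩ := h2 b hb
      exact ⟨U, hU, fun _ => hq⟩
    · obtain ⟨U, hU, hq⟩ := h2 (T.eval 1) ⟨1, hs 1⟩
      exact ⟨U, hU, fun h => absurd h hb⟩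
  choose f hf1 hf2 using key
  refine ⟨T.bind f, ?_, fun σ => ?_⟩
  · have := depth_bind_le T f (fun _ => True) (outP_true T) e (fun b _ => hf1 b)
    omega
  · rw [eval_bind]
    exact hf2 _ ⟨σ, hs σ⟩ σ (hs σ)

theorem Comp.map' {d : ℕ} {P : Equiv.Perm (Fin m) → β → Prop}
    {Q : Equiv.Perm (Fin m) → γ → Prop} (h : Comp d P) (f : β → γ)
    (hf : ∀ σ b, P σ b → Q σ (f b)) : Comp d Q := by
  obtain ⟨T, hT, hs⟩ := h
  exact ⟨T.map f, by rw [depth_map]; exact hT, fun σ => by rw [eval_map]; exact hf σ _ (hs σ)⟩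

end Pool.Agent.H95.SelS
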